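import Pool.Agent.Lib_helper79.SRC.AlgZ
import Pool.Agent.Lib_helper79.SRC.Small

set_option autoImplicit false

/-! # Normalization of a vertex: the box lemma and the three reductions -/

namespace Pool.Agent.Lib_helper26.SRC

open PowerSeries Pool.Agent.Lib_helper36.SRC Pool.Agent.Lib_helper36.SRC.RT
  Pool.Agent.Lib_helper79.SRC

lemma J_eq (U W : RT) : J U W = B U * H W + C (t U) * ((X - 1) * N U) * B W := by
  unfold J A H
  have h2 : ∀ r : ℝ, C (2 * r) = 2 * C r := fun r => by rw [map_mul, map_ofNat]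
  rw [h2, h2]
  have h1 : (C (1 / 2 : ℝ) : ℝ⟦X⟧) * 2 = 1 := by
    rw [show (2 : ℝ⟦X⟧) = C (2 : ℝ) from (map_ofNat C 2).symm, ← map_mul]; norm_num
  linear_combination (B U * B W + B U * (C (t W) * ((X - 1) * N W))
    + C (t U) * ((X - 1) * N U) * B W) * h1

/-- a pair of smaller trees of the same shape at `c` -/
theorem goodJ_box2 {n : ℕ} (hn : GoodUpTo n) (c R c1 c2 : RT) (K1 K2 : ℝ⟦X⟧) (hR : size R ≤ n)
    (g1 : GoodJ c1 R) (g2 : GoodJ c2 R)
    (k1 : InW (β c + t c - (β c1 + t c1)) K1) (k2 : InW (β c + t c - (β c2 + t c2)) K2)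
    (hN : K1 * (C (t c1) * N c1) + K2 * (C (t c2) * N c2) = C (t c) * N c)
    (hH : InW (β c + t c) (B c - K1 * B c1 - K2 * B c2)) : GoodJ c R := by
  have key : J c R = K1 * J c1 R + K2 * J c2 R + (B c - K1 * B c1 - K2 * B c2) * H R := by
    rw [J_eq, J_eq, J_eq]
    linear_combination -((X - 1) * B R) * hN
  unfold GoodJ at g1 g2 ⊢
  rw [key]
  refine InW.add (InW.add ?_ ?_) ?_
  · refine (k1.mul g1).congr ?_ rfl
    unfold mJ; ring
  · refine (k2.mul g2).congr ?_ rfl
    unfold mJ; ring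
  · refine (hH.mul (hn.H R hR)).congr ?_ rfl
    unfold mJ; ring

/-- a leaf with `a` half-edges -/
noncomputable def lf (a : ℕ) : RT := node a []

lemma t_lf (a : ℕ) : t (lf a) = (1 / 2) ^ (a + 1) := by unfold lf t; simp
lemma isLeaf_lf (a : ℕ) : IsLeaf (lf a) := kids_node a []
lemma t_lf_succ (a : ℕ) : t (lf a) = 2 * t (lf (a + 1)) := by
  rw [t_lf, t_lf, pow_succ (1 / 2 : ℝ) (a + 1)]; ring

lemma B_lf_cons (h a : ℕ) (ks : List RT) :
    B (node h (lf a :: ks)) = (1 + C (t (lf a)) * (X - 1)) * B (node h ks) := by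
  rw [B_cons, H_leaf (isLeaf_lf a)]

lemma N_lf_cons (h a : ℕ) (ks : List RT) : N (node h (lf a :: ks)) = N (node h ks) := by
  rw [N_cons, B_leaf (isLeaf_lf a), one_mul]

lemma β_lf_cons (h a : ℕ) (ks : List RT) :
    β (node h (lf a :: ks)) = t (lf a) + β (node h ks) := by
  rw [β_cons, β_leaf (isLeaf_lf a)]; ring

/-- **N1**: a half-edge at a vertex with a leaf can be removed. -/
theorem goodJ_N1 {n : ℕ} (hn : GoodUpTo n) (g a : ℕ) (ks : List RT) (R : RT)
    (hs : size (node (g + 1) (lf a :: ks)) + size R ≤ n + 1)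
    (ha : t (node (g + 1) (lf a :: ks)) ≤ t (lf a))
    (ih : GoodJ (node g (lf a :: ks)) R) : GoodJ (node (g + 1) (lf a :: ks)) R := by
  set p := t (node (g + 1) (lf a :: ks)) with hp
  set s := t (lf a) with hsdef
  have hp0 : 0 < p := t_pos _
  have hs0 : 0 < s := t_pos _
  have hs1 : s ≤ 1 / 2 := t_le_half _
  rw [size_node, sizeL_cons] at hs
  have hsl : size (lf a) = 1 := by rw [size_eq, isLeaf_lf, sizeL_nil]
  have hsR := size_pos R
  have g2 : GoodJ (node (g + 1) ks) R := by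
    have h1 : Good (node R.hh (node (g + 1) ks :: R.kids)) := by
      apply hn
      rw [size_node, sizeL_cons, size_node]
      have : size R = sizeL R.kids + 1 := size_eq R
      omega
    have h2 := (good_cons R.hh (node (g + 1) ks) R.kids).1 h1
    rwa [RT.eta] at h2
  have t1 : t (node g (lf a :: ks)) = 2 * p := by rw [hp, t_succ]
  have t2 : t (node (g + 1) ks) = 2 * p := by rw [hp, t_cons]
  have hBc : B (node (g + 1) (lf a :: ks)) = (1 + C s * (X - 1)) * B (node g ks) := by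
    rw [B_lf_cons, B_hh (g + 1) g]
  have hBc1 : B (node g (lf a :: ks)) = (1 + C s * (X - 1)) * B (node g ks) := B_lf_cons _ _ _
  have hBc2 : B (node (g + 1) ks) = B (node g ks) := B_hh _ _ _
  have hβc : β (node (g + 1) (lf a :: ks)) = s + β (node g ks) := by
    rw [β_lf_cons, β_hh (g + 1) g]
  have hβ1 : β (node g (lf a :: ks)) = s + β (node g ks) := β_lf_cons _ _ _
  have hβ2 : β (node (g + 1) ks) = β (node g ks) := β_hh _ _ _
  have hNc : N (node (g + 1) (lf a :: ks)) = N (node g ks) := by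
    rw [N_lf_cons, N_hh (g + 1) g]
  have hN1 : N (node g (lf a :: ks)) = N (node g ks) := N_lf_cons _ _ _
  have hN2 : N (node (g + 1) ks) = N (node g ks) := N_hh _ _ _
  set l1 : ℝ := (s - p) / (2 * s) with hl1
  set l2 : ℝ := p / (2 * s) with hl2
  have e1 : l1 * (2 * s) = s - p := by rw [hl1]; field_simp
  have e2 : l2 * (2 * s) = p := by rw [hl2]; field_simp
  have e3 : l1 + l2 = 1 / 2 := by
    have : (l1 + l2) * (2 * s) = (1 / 2) * (2 * s) := by rw [add_mul, e1, e2]; ring
    exact mul_right_cancel₀ (by positivity) this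
  have e4 : l1 * p = l2 * (s - p) := by
    have : (l1 * p) * (2 * s) = (l2 * (s - p)) * (2 * s) := by
      rw [mul_right_comm, e1, mul_right_comm, e2]; ring
    exact mul_right_cancel₀ (by positivity) this
  have hl10 : 0 ≤ l1 := div_nonneg (by linarith) (by positivity)
  have hl20 : 0 ≤ l2 := by positivity
  have k1 : InW (-p) (C l1 * (1 + C (-p) * (X - 1))) :=
    InW.smul hl10 (InW.coin (by linarith))
  have k2 : InW (s - p) (C l2 * (1 + C (s - p) * (X - 1))) :=
    InW.smul hl20 (InW.coin (by linarith))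
  refine goodJ_box2 hn _ R (node g (lf a :: ks)) (node (g + 1) ks)
    (C l1 * (1 + C (-p) * (X - 1))) (C l2 * (1 + C (s - p) * (X - 1))) (by omega) ih g2
    (k1.congr ?_ rfl) (k2.congr ?_ rfl) ?_ ?_
  · rw [← hp, hβc, hβ1, t1]; ring
  · rw [← hp, hβc, hβ2, t2]; ring
  · rw [t1, t2, ← hp, hNc, hN1, hN2]
    have c3 : (C l1 + C l2 : ℝ⟦X⟧) = C (1 / 2) := by rw [← map_add, e3]
    have c4 : (C l1 * C p : ℝ⟦X⟧) = C l2 * (C s - C p) := by
      rw [← map_mul, e4, map_mul, map_sub]
    have h1 : (C (1 / 2 : ℝ) : ℝ⟦X⟧) * C 2 = 1 := by rw [← map_mul]; norm_num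
    simp only [map_neg, map_sub, map_mul]
    linear_combination (C 2 * C p * N (node g ks)) * c3 + (C p * N (node g ks)) * h1
      - (C 2 * C p * (X - 1) * N (node g ks)) * c4
  · have hquad : InW (s + p) (1 + C (s + p) * (X - 1) + C (p * (s - p)) * (X - 1) ^ 2) := by
      have hsp : 0 ≤ s - p := by linarith
      have hm : 0 ≤ p * (s - p) := by positivity
      have hm4 : 4 * (p * (s - p)) ≤ (s + p) ^ 2 := by nlinarith [sq_nonneg (s - 2 * p), sq_nonneg p]
      apply quad
      · nlinarith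
      · nlinarith [sq_nonneg p, sq_nonneg s]
      · nlinarith [sq_nonneg (s - p), mul_nonneg hm (by linarith : (0:ℝ) ≤ 1 - s - p + 0 + 1 / 2)]
      · have h1 : 0 ≤ 1 - (s + p) := by linarith
        nlinarith [mul_nonneg hm h1, mul_nonneg (sq_nonneg (s + p)) h1]
    have hB : InW (β (node g ks)) (B (node g ks)) := hn.BL g ks (by omega)
    refine ((hB.mul hquad).smul (by norm_num : (0 : ℝ) ≤ 1 / 2)).congr ?_ ?_
    · rw [← hp, hβc]; ring
    · rw [hBc, hBc1, hBc2]
      have c3 : (C l1 + C l2 : ℝ⟦X⟧) = C (1 / 2) := by rw [← map_add, e3]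
      have c4 : (C l1 * C p : ℝ⟦X⟧) = C l2 * (C s - C p) := by
        rw [← map_mul, e4, map_mul, map_sub]
      have c1 : (C l1 * (2 * C s) : ℝ⟦X⟧) = C s - C p := by
        have := congrArg (C (R := ℝ)) e1
        simpa only [map_mul, map_ofNat, map_sub] using this
      have hh : (C (1 / 2 : ℝ) : ℝ⟦X⟧) * 2 = 1 := by
        rw [show (2 : ℝ⟦X⟧) = C (2 : ℝ) from (map_ofNat C 2).symm, ← map_mul]; norm_num
      simp only [map_neg, map_sub, map_mul, map_add]
      set B' := B (node g ks)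
      linear_combination B' * c3 - (-B' + B' * (X - 1) * (C s * C l1 - C s)
        - B' * (X - 1) ^ 2 * C p * C s * C l1) * hh - (B' * (X - 1)) * c4
        - (-B' * (X - 1) * C (1 / 2) + B' * (X - 1) ^ 2 * C p * C (1 / 2)) * c1

end Pool.Agent.Lib_helper26.SRC
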