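import Pool.Agent.Lib_helper26.SRC.Box

set_option autoImplicit false

/-! # The second and the third reduction -/

namespace Pool.Agent.Lib_helper26.SRC

open PowerSeries Pool.Agent.Lib_helper36.SRC Pool.Agent.Lib_helper36.SRC.RT
  Pool.Agent.Lib_helper79.SRC

/-- small pairs are good -/
lemma goodJ_of_small {n : ℕ} (hn : GoodUpTo n) (c R : RT) (hs : size c + size R ≤ n) :
    GoodJ c R := by
  have h1 : Good (node R.hh (c :: R.kids)) := by
    apply hn
    rw [size_node, sizeL_cons]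
    have : size R = sizeL R.kids + 1 := size_eq R
    omega
  have h2 := (good_cons R.hh c R.kids).1 h1
  rwa [RT.eta] at h2

lemma size_lf (a : ℕ) : size (lf a) = 1 := by rw [size_eq, isLeaf_lf, sizeL_nil]

/-- **N2**: two thin leaves `s₁ ≤ s₂` at a vertex. -/
theorem goodJ_N2 {n : ℕ} (hn : GoodUpTo n) (h a b : ℕ) (ks : List RT) (R : RT)
    (hs : size (node h (lf a :: lf (b + 1) :: ks)) + size R ≤ n + 1)
    (s1 s2 p : ℝ) (hs1 : t (lf a) = s1) (hs2 : t (lf (b + 1)) = s2)
    (hp : t (node h (lf a :: lf (b + 1) :: ks)) = p)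
    (hps : p ≤ s1) (hss : s1 ≤ s2)
    (hcl : InW (β (node h ks) + (s1 + s2 + p)) (B (node h ks) * (1 + C (s1 + s2 + p) * (X - 1)
      + C (2 * s1 * s2 + (s2 - s1 + p) * (s1 - p)) * (X - 1) ^ 2))) :
    GoodJ (node h (lf a :: lf (b + 1) :: ks)) R := by
  have hp0 : 0 < p := hp ▸ t_pos _
  have hs10 : 0 < s1 := hs1 ▸ t_pos _
  have hs20 : 0 < s2 := hs2 ▸ t_pos _
  have hs1' : s1 ≤ 1 / 2 := hs1 ▸ t_le_half _
  have hs3 : t (lf b) = 2 * s2 := by rw [t_lf_succ, hs2]
  rw [size_node, sizeL_cons, sizeL_cons, size_lf, size_lf] at hs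
  have hsR := size_pos R
  have g1 : GoodJ (node h (lf (b + 1) :: ks)) R := goodJ_of_small hn _ _ (by
    rw [size_node, sizeL_cons, size_lf]; omega)
  have g2 : GoodJ (node h (lf b :: ks)) R := goodJ_of_small hn _ _ (by
    rw [size_node, sizeL_cons, size_lf]; omega)
  have t1 : t (node h (lf (b + 1) :: ks)) = 2 * p := by rw [← hp, t_cons]
  have t2 : t (node h (lf b :: ks)) = 2 * p := by
    rw [← t1]; exact t_length h (by simp)
  have hBc : B (node h (lf a :: lf (b + 1) :: ks))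
      = (1 + C s1 * (X - 1)) * ((1 + C s2 * (X - 1)) * B (node h ks)) := by
    rw [B_lf_cons, B_lf_cons, hs1, hs2]
  have hB1 : B (node h (lf (b + 1) :: ks)) = (1 + C s2 * (X - 1)) * B (node h ks) := by
    rw [B_lf_cons, hs2]
  have hB2 : B (node h (lf b :: ks)) = (1 + C (2 * s2) * (X - 1)) * B (node h ks) := by
    rw [B_lf_cons, hs3]
  have hβc : β (node h (lf a :: lf (b + 1) :: ks)) = s1 + (s2 + β (node h ks)) := by
    rw [β_lf_cons, β_lf_cons, hs1, hs2]
  have hβ1 : β (node h (lf (b + 1) :: ks)) = s2 + β (node h ks) := by rw [β_lf_cons, hs2]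
  have hβ2 : β (node h (lf b :: ks)) = 2 * s2 + β (node h ks) := by rw [β_lf_cons, hs3]
  have hNc : N (node h (lf a :: lf (b + 1) :: ks)) = N (node h ks) := by
    rw [N_lf_cons, N_lf_cons]
  have hN1 : N (node h (lf (b + 1) :: ks)) = N (node h ks) := N_lf_cons _ _ _
  have hN2 : N (node h (lf b :: ks)) = N (node h ks) := N_lf_cons _ _ _
  set l1 : ℝ := (s2 - s1 + p) / (2 * s2) with hl1
  set l2 : ℝ := (s1 - p) / (2 * s2) with hl2
  have e3 : l1 + l2 = 1 / 2 := by rw [hl1, hl2]; field_simp; ring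
  have e4 : l1 * (s1 - p) = l2 * (s2 - s1 + p) := by rw [hl1, hl2]; field_simp
  have hl10 : 0 ≤ l1 := div_nonneg (by linarith) (by positivity)
  have hl20 : 0 ≤ l2 := div_nonneg (by linarith) (by positivity)
  have k1 : InW (s1 - p) (C l1 * (1 + C (s1 - p) * (X - 1))) :=
    InW.smul hl10 (InW.coin (by linarith))
  have k2 : InW (-(s2 - s1 + p)) (C l2 * (1 + C (-(s2 - s1 + p)) * (X - 1))) :=
    InW.smul hl20 (InW.coin (by linarith))
  refine goodJ_box2 hn _ R (node h (lf (b + 1) :: ks)) (node h (lf b :: ks))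
    (C l1 * (1 + C (s1 - p) * (X - 1))) (C l2 * (1 + C (-(s2 - s1 + p)) * (X - 1))) (by omega) g1 g2
    (k1.congr ?_ rfl) (k2.congr ?_ rfl) ?_ ?_
  · rw [hp, hβc, hβ1, t1]; ring
  · rw [hp, hβc, hβ2, t2]; ring
  · rw [t1, t2, hp, hNc, hN1, hN2]
    have f1 : (l1 + l2) * (2 * p) = p := by rw [e3]; ring
    have f2 : (l1 * (s1 - p) - l2 * (s2 - s1 + p)) * (2 * p) = 0 := by rw [e4]; ring
    have g1 := congrArg (C (R := ℝ)) f1
    have g2 := congrArg (C (R := ℝ)) f2
    simp only [map_mul, map_add, map_sub, map_zero, map_ofNat, map_neg] at g1 g2 ⊢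
    linear_combination N (node h ks) * g1 + (X - 1) * N (node h ks) * g2
  · refine (hcl.smul (by norm_num : (0 : ℝ) ≤ 1 / 2)).congr ?_ ?_
    · rw [hp, hβc]; ring
    · rw [hBc, hB1, hB2]
      have f0 : 1 - l1 - l2 = 1 / 2 := by linarith
      have f1 : s1 + s2 - l1 * (s2 + (s1 - p)) - l2 * (2 * s2 - (s2 - s1 + p))
          = 1 / 2 * (s1 + s2 + p) := by rw [hl1, hl2]; field_simp; ring
      have f2 : s1 * s2 - l1 * (s1 - p) * s2 + l2 * (s2 - s1 + p) * (2 * s2)
          = 1 / 2 * (2 * s1 * s2 + (s2 - s1 + p) * (s1 - p)) := by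
        rw [hl1, hl2]; field_simp; ring
      have g0 := congrArg (C (R := ℝ)) f0
      have g1 := congrArg (C (R := ℝ)) f1
      have g2 := congrArg (C (R := ℝ)) f2
      simp only [map_mul, map_add, map_sub, map_one, map_ofNat, map_neg] at g0 g1 g2 ⊢
      linear_combination -(B (node h ks)) * (g0 + (X - 1) * g1 + (X - 1) ^ 2 * g2)

/-- **N3** with a free gadget `K`: a thin leaf at a vertex. -/
theorem goodJ_N3K {n : ℕ} (hn : GoodUpTo n) (h a : ℕ) (ks : List RT) (R : RT)
    (hs : size (node h (lf (a + 1) :: ks)) + size R ≤ n + 1)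
    (s p : ℝ) (hs2 : t (lf (a + 1)) = s) (hp : t (node h (lf (a + 1) :: ks)) = p) (K : ℝ⟦X⟧)
    (hK : InW (s - p) K) (hK' : InW (-s) (1 - 2 * K))
    (ih : GoodJ (node h (lf a :: ks)) R)
    (hcl : InW (β (node h ks) + (s + p)) (B (node h ks) * (K * (1 + C (4 * s) * (X - 1))
      - C s * (X - 1)))) :
    GoodJ (node h (lf (a + 1) :: ks)) R := by
  have hs3 : t (lf a) = 2 * s := by rw [t_lf_succ, hs2]
  rw [size_node, sizeL_cons, size_lf] at hs
  have hsR := size_pos R
  have g2 : GoodJ (node h ks) R := goodJ_of_small hn _ _ (by rw [size_node]; omega)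
  have t1 : t (node h (lf a :: ks)) = p := by rw [← hp]; exact t_length h (by simp)
  have t2 : t (node h ks) = 2 * p := by rw [← hp, t_cons]
  have hBc : B (node h (lf (a + 1) :: ks)) = (1 + C s * (X - 1)) * B (node h ks) := by
    rw [B_lf_cons, hs2]
  have hB1 : B (node h (lf a :: ks)) = (1 + C (2 * s) * (X - 1)) * B (node h ks) := by
    rw [B_lf_cons, hs3]
  have hβc : β (node h (lf (a + 1) :: ks)) = s + β (node h ks) := by rw [β_lf_cons, hs2]
  have hβ1 : β (node h (lf a :: ks)) = 2 * s + β (node h ks) := by rw [β_lf_cons, hs3]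
  have hNc : N (node h (lf (a + 1) :: ks)) = N (node h ks) := N_lf_cons _ _ _
  have hN1 : N (node h (lf a :: ks)) = N (node h ks) := N_lf_cons _ _ _
  refine goodJ_box2 hn _ R (node h (lf a :: ks)) (node h ks)
    (1 - 2 * K) K (by omega) ih g2 (hK'.congr ?_ rfl) (hK.congr ?_ rfl) ?_ ?_
  · rw [hp, hβc, hβ1, t1]; ring
  · rw [hp, hβc, t2]; ring
  · rw [t1, t2, hp, hNc, hN1]
    simp only [map_mul, map_ofNat]
    ring
  · refine hcl.congr ?_ ?_
    · rw [hp, hβc]; ring
    · rw [hBc, hB1]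
      simp only [map_mul, map_ofNat]
      ring

/-- **N3** with the affine gadget -/
theorem goodJ_N3 {n : ℕ} (hn : GoodUpTo n) (h a : ℕ) (ks : List RT) (R : RT)
    (hs : size (node h (lf (a + 1) :: ks)) + size R ≤ n + 1)
    (s p : ℝ) (hs2 : t (lf (a + 1)) = s) (hp : t (node h (lf (a + 1) :: ks)) = p) (hps : p < s)
    (ih : GoodJ (node h (lf a :: ks)) R)
    (hcl : InW (β (node h ks) + (s + p)) (B (node h ks) * (1 + C (s + p) * (X - 1)
      + C (4 * s * (s - p)) * (X - 1) ^ 2))) :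
    GoodJ (node h (lf (a + 1) :: ks)) R := by
  have hp0 : 0 < p := hp ▸ t_pos _
  have hs0 : 0 < s := hs2 ▸ t_pos _
  have hs1 : s ≤ 1 / 2 := hs2 ▸ t_le_half _
  have hd : 0 < 2 * s - p := by linarith
  set l2 : ℝ := s / (2 * (2 * s - p)) with hl2
  have hl20 : 0 ≤ l2 := by positivity
  have e2 : l2 * (2 * (2 * s - p)) = s := by
    rw [hl2]; exact div_mul_cancel₀ _ (ne_of_gt (by linarith))
  have e1 : 1 - 2 * l2 = (s - p) / (2 * s - p) := by rw [hl2]; field_simp; ring
  have e4 : 2 * l2 * (s - p) = (1 - 2 * l2) * s := by rw [e1, hl2]; field_simp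
  have hl10 : 0 ≤ 1 - 2 * l2 := by rw [e1]; exact div_nonneg (by linarith) hd.le
  apply goodJ_N3K hn h a ks R hs s p hs2 hp (C l2 * (1 + C (s - p) * (X - 1))) _ _ ih
  · refine (hcl.smul hl20).congr rfl ?_
    have g2 := congrArg (C (R := ℝ)) e2
    simp only [map_mul, map_add, map_sub, map_ofNat] at g2 ⊢
    linear_combination -(B (node h ks) * (X - 1)) * g2
  · exact InW.smul hl20 (InW.coin (by linarith))
  · refine (InW.smul hl10 (InW.coin (s := -s) (by linarith))).congr rfl ?_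
    have g4 := congrArg (C (R := ℝ)) e4
    simp only [map_mul, map_sub, map_ofNat, map_neg, map_one] at g4 ⊢
    linear_combination (X - 1) * g4

end Pool.Agent.Lib_helper26.SRC
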