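import Pool.Agent.Lib_helper26.SRC.Poly

set_option autoImplicit false

/-! # The claims about one more coin -/

namespace Pool.Agent.Lib_helper26.SRC

open PowerSeries Finset Pool.Agent.Lib_helper36.SRC Pool.Agent.Lib_helper79.SRC

lemma InW.Xpow (j : ℕ) : InW (j : ℝ) ((X : ℝ⟦X⟧) ^ j) := by
  induction j with
  | zero => simpa using InW.one (le_refl (0 : ℝ))
  | succ j ih =>
    rw [pow_succ]
    exact (ih.mul InW.X).congr (by push_cast; ring) rfl

lemma inW_X3 (ν r0 r1 r2 r3 : ℝ) (hν : ν ≤ 2) (h0 : 0 ≤ r0) (h1 : 0 ≤ r1) (h2 : 0 ≤ r2) (h3 : 0 ≤ r3)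
    (hc : ν * (r0 + r1) ≤ r1) :
    InW ν (C r0 + C r1 * X + C r2 * X ^ 2 + C r3 * X ^ 3) := by
  have h01 : InW ν (C r0 + C r1 * (X : ℝ⟦X⟧)) := by
    rcases (add_nonneg h0 h1).eq_or_lt with h | h
    · have e0 : r0 = 0 := by linarith
      have e1 : r1 = 0 := by linarith
      subst e0 e1
      simpa using InW.zero ν
    · have hs : r1 / (r0 + r1) ≤ 1 := by rw [div_le_one h]; linarith
      have hs2 : ν ≤ r1 / (r0 + r1) := by rw [le_div_iff₀ h]; exact hc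
      refine (((InW.coin hs).mono hs2).smul h.le).congr rfl ?_
      have e : (r0 + r1) * (r1 / (r0 + r1)) = r1 := by field_simp
      have e' : C (r0 + r1) * C (r1 / (r0 + r1)) = (C r1 : ℝ⟦X⟧) := by rw [← map_mul, e]
      rw [map_add] at e' ⊢
      linear_combination (X - 1) * e'
  have h2' : InW ν (C r2 * (X : ℝ⟦X⟧) ^ 2) :=
    ((InW.Xpow 2).mono (by push_cast; linarith)).smul h2
  have h3' : InW ν (C r3 * (X : ℝ⟦X⟧) ^ 3) :=
    ((InW.Xpow 3).mono (by push_cast; linarith)).smul h3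
  exact (h01.add h2').add h3'

lemma deriv_C_mul (t : ℝ) (G : ℝ⟦X⟧) : (d⁄dX ℝ) (C t * G) = C t * (d⁄dX ℝ) G := by
  rw [Derivation.leibniz, derivative_C, smul_zero, add_zero, smul_eq_mul]

lemma deriv_coin (w : ℝ) : (d⁄dX ℝ) (1 + C w * (X - 1)) = (C w : ℝ⟦X⟧) := by
  rw [map_add, deriv_C_mul, map_sub, derivative_X]
  simp only [Derivation.map_one_eq_zero]
  ring

lemma deriv_Q (m c : ℝ) :
    (d⁄dX ℝ) (1 + C m * (X - 1) + C c * (X - 1) ^ 2) = (C m + 2 * C c * (X - 1) : ℝ⟦X⟧) := by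
  rw [map_add, deriv_coin, deriv_C_mul, pow_two, Derivation.leibniz, map_sub, derivative_X]
  simp only [Derivation.map_one_eq_zero, smul_eq_mul]
  ring

/-- one coin times a quadratic -/
theorem inW_coin_Q (w m c : ℝ) (hν : w + m ≤ 3) (h00 : 0 ≤ (1 - w) * (1 - m + c))
    (h0 : 0 ≤ w ^ 2 * (1 - m + c) + (1 - w) * (m ^ 2 - 2 * c - m * c))
    (h1 : 0 ≤ w ^ 2 * (m - 2 * c) + w * (m ^ 2 - 2 * c) + (1 - 2 * w) * (m * c))
    (h2 : 0 ≤ w ^ 2 * c + w * (m * c))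
    (hc : (w + m - 1) * (w ^ 2 * (1 - c) + (m ^ 2 - 2 * c) - w * (m * c))
      ≤ w ^ 2 * (m - 2 * c) + w * (m ^ 2 - 2 * c) + (1 - 2 * w) * (m * c)) :
    InW (w + m) ((1 + C w * (X - 1)) * (1 + C m * (X - 1) + C c * (X - 1) ^ 2)) := by
  have key := inW_X3 (w + m - 1) _ _ _ 0 (by linarith) h0 h1 h2 le_rfl
    (by refine le_trans (le_of_eq ?_) hc; ring)
  apply InW.of_deriv (h0 := ?_) (hR := key) (hd := ?_)
  · simp
    refine le_trans h00 (le_of_eq ?_)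
    ring
  · rw [Derivation.leibniz, deriv_coin, deriv_Q]
    simp only [smul_eq_mul, map_add, map_sub, map_mul, map_one, map_pow, map_zero, map_ofNat]
    ring

/-- two equal coins times a quadratic -/
theorem inW_coin2_Q (w m c : ℝ) (hν : 2 * w + m ≤ 3) (h00 : 0 ≤ (1 - w) ^ 2 * (1 - m + c))
    (h0 : 0 ≤ (1 - w) * (2 * w ^ 2 * (1 - m + c) + (1 - w) * (m ^ 2 - 2 * c - m * c)))
    (h1 : 0 ≤ 2 * w ^ 2 * ((1 - w) * (m - 2 * c) + w * (1 - m + c))
      + 2 * w * (1 - w) * (m ^ 2 - 2 * c - m * c) + (1 - w) ^ 2 * (m * c))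
    (h2 : 0 ≤ 2 * w ^ 2 * ((1 - w) * c + w * (m - 2 * c)) + w ^ 2 * (m ^ 2 - 2 * c - m * c)
      + 2 * w * (1 - w) * (m * c))
    (h3 : 0 ≤ 2 * w ^ 2 * (w * c) + w ^ 2 * (m * c))
    (hc : (2 * w + m - 1) * ((1 - w) * (2 * w ^ 2 * (1 - m + c) + (1 - w) * (m ^ 2 - 2 * c - m * c))
      + (2 * w ^ 2 * ((1 - w) * (m - 2 * c) + w * (1 - m + c))
      + 2 * w * (1 - w) * (m ^ 2 - 2 * c - m * c) + (1 - w) ^ 2 * (m * c)))
      ≤ 2 * w ^ 2 * ((1 - w) * (m - 2 * c) + w * (1 - m + c))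
      + 2 * w * (1 - w) * (m ^ 2 - 2 * c - m * c) + (1 - w) ^ 2 * (m * c)) :
    InW (2 * w + m) ((1 + C w * (X - 1)) ^ 2 * (1 + C m * (X - 1) + C c * (X - 1) ^ 2)) := by
  have key := inW_X3 (2 * w + m - 1) _ _ _ _ (by linarith) h0 h1 h2 h3 hc
  apply InW.of_deriv (h0 := ?_) (hR := key) (hd := ?_)
  · simp
    refine le_trans h00 (le_of_eq ?_)
    ring
  · rw [pow_two, Derivation.leibniz, Derivation.leibniz, deriv_coin, deriv_Q]
    simp only [smul_eq_mul, map_add, map_sub, map_mul, map_one, map_pow, map_ofNat]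
    ring

/-- **N2**, the generic claim -/
theorem claim2 (u s w p : ℝ) (hp : 0 < p) (hpu : 2 * p ≤ u) (hus : u ≤ s) (hsw : s ≤ w)
    (hw : w ≤ 1 / 2)
    (hcase : s ≤ 1 / 8 ∨ (s = 1 / 4 ∧ u ≤ 1 / 8) ∨ (s = 1 / 4 ∧ u = 1 / 4 ∧ w = 1 / 2 ∧ p ≤ 1 / 16)) :
    InW (w + (u + s + p)) ((1 + C w * (X - 1)) * (1 + C (u + s + p) * (X - 1)
      + C (2 * u * s + (s - u + p) * (u - p)) * (X - 1) ^ 2)) := by
  have hs4 : s ≤ 1 / 4 := by
    rcases hcase with h | ⟨h, -⟩ | ⟨h, -⟩ <;> linarith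
  have hp16 : p ≤ 1 / 16 := by
    rcases hcase with h | ⟨h, h'⟩ | ⟨h, h', -, h''⟩ <;> linarith
  set m := u + s + p with hm
  set c := 2 * u * s + (s - u + p) * (u - p) with hcdef
  have hu : 0 < u := by linarith
  have hs0 : 0 < s := by linarith
  have hm0 : 0 < m := by linarith
  have hc0 : 0 ≤ c := by
    have h1 : 0 ≤ (s - u + p) * (u - p) := mul_nonneg (by linarith) (by linarith)
    have h2 : 0 ≤ 2 * u * s := by positivity
    linarith
  have hm1 : m ≤ 9 / 16 := by linarith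
  have e : m ^ 2 - 2 * c = (s - u) * (s - 3 * u) + p * (4 * s - 2 * u) + 3 * p ^ 2 := by
    rw [hm, hcdef]; ring
  have hb : (s - u + p) * (u - p) ≤ s ^ 2 / 4 := by nlinarith [sq_nonneg (s - u + p - (u - p))]
  have hus4 : u * s ≤ u / 4 := by nlinarith
  have hss4 : s ^ 2 ≤ s / 4 := by nlinarith
  have hm2 : 7 / 8 * s ≤ m - 2 * c := by rw [hcdef, hm]; linarith
  have hmc : 0 ≤ m - 2 * c := by linarith
  have h1mc : 0 ≤ 1 - m + c := by linarith
  have hw0 : 0 < w := by linarith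
  have hlow : -(s ^ 2 / 3) ≤ m ^ 2 - 2 * c := by
    rw [e]
    have h7 : 0 ≤ p * (4 * s - 2 * u) := mul_nonneg hp.le (by linarith)
    nlinarith [sq_nonneg (u - 2 * s / 3), sq_nonneg p]
  have h1 : 0 ≤ w ^ 2 * (m - 2 * c) + w * (m ^ 2 - 2 * c) + (1 - 2 * w) * (m * c) := by
    have h3 : 0 ≤ (1 - 2 * w) * (m * c) := mul_nonneg (by linarith) (mul_nonneg hm0.le hc0)
    have h4 : 0 ≤ w * (w * (m - 2 * c) + (m ^ 2 - 2 * c)) := by
      apply mul_nonneg hw0.le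
      have h5 : s * (m - 2 * c) ≤ w * (m - 2 * c) := mul_le_mul_of_nonneg_right hsw hmc
      nlinarith
    nlinarith
  have h0 : 0 ≤ w ^ 2 * (1 - m + c) + (1 - w) * (m ^ 2 - 2 * c - m * c) := by
    rcases le_or_gt 0 (m ^ 2 - 2 * c - m * c) with hD | hD
    · have := mul_nonneg (by linarith : (0 : ℝ) ≤ 1 - w) hD
      have h15 : 0 ≤ w ^ 2 * (1 - m + c) := mul_nonneg (by positivity) h1mc
      linarith
    · have hw2 : s ^ 2 * (1 - m + c) ≤ w ^ 2 * (1 - m + c) := by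
        apply mul_le_mul_of_nonneg_right _ h1mc
        nlinarith
      have hw3 : (1 - s) * (m ^ 2 - 2 * c - m * c) ≤ (1 - w) * (m ^ 2 - 2 * c - m * c) :=
        mul_le_mul_of_nonpos_right (by linarith) hD.le
      rcases hcase with hs | ⟨hs, hu8⟩ | ⟨hs, hu4, hw2', hp16'⟩
      · -- `s ≤ 1 / 8`
        have hq0 : 0 ≤ s ^ 2 + (m ^ 2 - 2 * c) := by linarith [sq_nonneg s]
        have hdiff : s ^ 2 * m + m * c + s * (m ^ 2 - 2 * c) ≤ 8 * s * (s ^ 2 + (m ^ 2 - 2 * c)) := by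
          obtain ⟨q, hq⟩ : ∃ q, q = u - 2 * p := ⟨_, rfl⟩
          obtain ⟨v, hv⟩ : ∃ v, v = s - u := ⟨_, rfl⟩
          have hq0 : 0 ≤ q := by linarith
          have hv0 : 0 ≤ v := by linarith
          have e1 : u = 2 * p + q := by linarith
          have e2 : s = 2 * p + q + v := by linarith
          have h9 : 0 ≤ q * (2 * q ^ 2 - 3 * q * v + 10 * v ^ 2) := by
            apply mul_nonneg hq0
            nlinarith [sq_nonneg (q - v), sq_nonneg q, sq_nonneg v]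
          have h10 : 0 ≤ 14 * v ^ 3 + 48 * p * v ^ 2 + 26 * p * q * v + 21 * p * q ^ 2
              + 87 * p ^ 2 * v + 82 * p ^ 2 * q + 97 * p ^ 3 := by positivity
          rw [hcdef, hm, e2, e1]
          nlinarith
        have h11 : 8 * s * (s ^ 2 + (m ^ 2 - 2 * c)) ≤ 1 * (s ^ 2 + (m ^ 2 - 2 * c)) :=
          mul_le_mul_of_nonneg_right (by linarith) hq0
        have h12 : 0 ≤ s ^ 2 * c + s * (m * c) := by positivity
        nlinarith
      · subst hs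
        have h13 : 0 ≤ (1 / 4) ^ 2 * (1 - m + c) + (1 - 1 / 4) * (m ^ 2 - 2 * c - m * c) := by
          obtain ⟨q, hq⟩ : ∃ q, q = u - 2 * p := ⟨_, rfl⟩
          have hq0 : 0 ≤ q := by linarith
          have e1 : u = 2 * p + q := by linarith
          rw [hcdef, hm, e1]
          have h14 : 0 ≤ 1 / 8 - q - 2 * p := by linarith
          nlinarith [mul_nonneg h14 h14, mul_nonneg hq0 hp.le, mul_nonneg h14 hp.le,
            mul_nonneg h14 hq0, mul_nonneg (mul_nonneg hq0 hp.le) hq0,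
            mul_nonneg (mul_nonneg hq0 hp.le) hp.le, pow_nonneg hq0 3, pow_nonneg hp.le 3]
        linarith
      · subst hs hu4 hw2'
        rw [hcdef, hm]
        nlinarith [sq_nonneg p, pow_nonneg hp.le 3]
  apply inW_coin_Q w m c (by linarith) (mul_nonneg (by linarith) h1mc) h0 h1
  · positivity
  · have hsum : 0 ≤ w ^ 2 * (1 - c) + (m ^ 2 - 2 * c) - w * (m * c) := by
      have := add_nonneg h0 h1
      refine le_trans this (le_of_eq ?_)
      ring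
    rcases le_or_gt (w + m) 1 with hle | hgt
    · have : (w + m - 1) * (w ^ 2 * (1 - c) + (m ^ 2 - 2 * c) - w * (m * c)) ≤ 0 :=
        mul_nonpos_of_nonpos_of_nonneg (by linarith) hsum
      linarith
    · rcases hcase with hs | ⟨hs, hu8⟩ | ⟨hs, hu4, hw2', hp16'⟩
      · linarith
      · linarith
      · subst hs hu4 hw2'
        rw [hcdef, hm]
        nlinarith [sq_nonneg p, pow_nonneg hp.le 3, pow_nonneg hp.le 4]

end Pool.Agent.Lib_helper26.SRC
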