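import Pool.Agent.Lib_helper26.SRC.Claims

set_option autoImplicit false

/-! # The claims about several equal coins -/

namespace Pool.Agent.Lib_helper26.SRC

open PowerSeries Finset Pool.Agent.Lib_helper36.SRC Pool.Agent.Lib_helper79.SRC

/-- three leaves `1/4` -/
theorem claim_q3 : InW (13 / 16) ((1 + C (1 / 4 : ℝ) * (X - 1)) * (1 + C (9 / 16 : ℝ) * (X - 1)
    + C (35 / 256 : ℝ) * (X - 1) ^ 2)) := by
  rw [← PS_qc, PS_mulc 2 _ _ rfl]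
  apply inW_PS' 3 _ _ 2 (by norm_num)
  · intro n hn
    interval_cases n
    · simp [sum_range_succ, lev, coeff_ab_zero, coeff_ab_pos]
      norm_num [mulc, qc]
    · simp [sum_range_succ, lev, coeff_ab_zero, coeff_ab_pos]
      norm_num [mulc, qc]
  · intro k
    simp only [sum_range_succ, range_zero, sum_empty, ff, mulc, qc]
    have hk : (0 : ℝ) ≤ k := k.cast_nonneg
    norm_num
    ring_nf
    positivity

/-- leaves `1/8, 1/2, 1/2` -/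
theorem claim_e3 : InW (19 / 16) ((1 + C (1 / 2 : ℝ) * (X - 1)) * ((1 + C (1 / 2 : ℝ) * (X - 1)) *
    (1 + C (3 / 16 : ℝ) * (X - 1) + C (1 / 32 : ℝ) * (X - 1) ^ 2))) := by
  rw [← PS_qc, PS_mulc 2 _ _ rfl, PS_mulc 3 _ _ (by simp [mulc, qc])]
  apply inW_PS' 4 _ _ 2 (by norm_num)
  · intro n hn
    interval_cases n <;>
    · simp [sum_range_succ, lev, coeff_ab_zero, coeff_ab_pos]
      norm_num [mulc, qc]
  · intro k
    simp only [sum_range_succ, range_zero, sum_empty, ff, mulc, qc]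
    have hk : (0 : ℝ) ≤ k := k.cast_nonneg
    norm_num
    ring_nf
    positivity

/-- leaves `1/4, 1/2, 1/2, 1/2` -/
theorem claim_f4 : InW (57 / 32) ((1 + C (1 / 2 : ℝ) * (X - 1)) * ((1 + C (1 / 2 : ℝ) * (X - 1)) *
    ((1 + C (1 / 2 : ℝ) * (X - 1)) *
    (1 + C (9 / 32 : ℝ) * (X - 1) + C (7 / 32 : ℝ) * (X - 1) ^ 2)))) := by
  rw [← PS_qc, PS_mulc 2 _ _ rfl, PS_mulc 3 _ _ (by simp [mulc, qc]), PS_mulc 4 _ _ (by simp [mulc, qc])]
  apply inW_PS' 5 _ _ 4 (by norm_num)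
  · intro n hn
    interval_cases n <;>
    · simp [sum_range_succ, lev, coeff_ab_zero, coeff_ab_pos, Nat.factorial]
      norm_num [mulc, qc]
  · intro k
    simp only [sum_range_succ, range_zero, sum_empty, ff, mulc, qc]
    have hk : (0 : ℝ) ≤ k := k.cast_nonneg
    norm_num
    ring_nf
    positivity

/-- at least four leaves `1/4` -/
theorem claim_q4 (p : ℝ) (hp0 : 0 ≤ p) (hp1 : p ≤ 1 / 32) :
    InW (1 + p) ((1 + C (1 / 4 : ℝ) * (X - 1)) * ((1 + C (1 / 4 : ℝ) * (X - 1))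
      * (1 + C (1 / 2 + p) * (X - 1) + C (1 / 8 + p / 4 - p ^ 2) * (X - 1) ^ 2))) := by
  rw [← PS_qc, PS_mulc 2 _ _ rfl, PS_mulc 3 _ _ (by simp [mulc, qc])]
  have q1 : 0 ≤ p := hp0
  have q2 : 0 ≤ p ^ 2 := pow_nonneg hp0 2
  have r2 : p ^ 2 ≤ 1 / 32 * p := by
    have := mul_le_mul_of_nonneg_right hp1 q1
    calc p ^ 2 = p * p := by ring
      _ ≤ 1 / 32 * p := this
  have q3 : 0 ≤ p ^ 3 := pow_nonneg hp0 3
  have r3 : p ^ 3 ≤ 1 / 32 * p ^ 2 := by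
    have := mul_le_mul_of_nonneg_right hp1 q2
    calc p ^ 3 = p * p ^ 2 := by ring
      _ ≤ 1 / 32 * p ^ 2 := this
  have q4 : 0 ≤ p ^ 4 := pow_nonneg hp0 4
  have r4 : p ^ 4 ≤ 1 / 32 * p ^ 3 := by
    have := mul_le_mul_of_nonneg_right hp1 q3
    calc p ^ 4 = p * p ^ 3 := by ring
      _ ≤ 1 / 32 * p ^ 3 := this
  have q5 : 0 ≤ p ^ 5 := pow_nonneg hp0 5
  have r5 : p ^ 5 ≤ 1 / 32 * p ^ 4 := by
    have := mul_le_mul_of_nonneg_right hp1 q4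
    calc p ^ 5 = p * p ^ 4 := by ring
      _ ≤ 1 / 32 * p ^ 4 := this
  have q6 : 0 ≤ p ^ 6 := pow_nonneg hp0 6
  have r6 : p ^ 6 ≤ 1 / 32 * p ^ 5 := by
    have := mul_le_mul_of_nonneg_right hp1 q5
    calc p ^ 6 = p * p ^ 5 := by ring
      _ ≤ 1 / 32 * p ^ 5 := this
  have q7 : 0 ≤ p ^ 7 := pow_nonneg hp0 7
  have r7 : p ^ 7 ≤ 1 / 32 * p ^ 6 := by
    have := mul_le_mul_of_nonneg_right hp1 q6
    calc p ^ 7 = p * p ^ 6 := by ring
      _ ≤ 1 / 32 * p ^ 6 := this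
  apply inW_PS' 4 _ _ 2 (by push_cast; linarith)
  · intro n hn
    interval_cases n
    · refine le_trans (b := (45 / 128) + (-27 / 64) * p + (-9 / 16) * p ^ 2) (by linarith) (le_of_eq ?_)
      simp [sum_range_succ, lev, coeff_ab_zero, coeff_ab_pos, Nat.factorial, mulc, qc]
      try ring
    · refine le_trans (b := (3 / 128) + (9 / 128) * p + (111 / 64) * p ^ 2 + (9 / 16) * p ^ 3) (by linarith) (le_of_eq ?_)
      simp [sum_range_succ, lev, coeff_ab_zero, coeff_ab_pos, Nat.factorial, mulc, qc]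
      try ring
  · intro k
    have hk : (0 : ℝ) ≤ k := k.cast_nonneg
    have c0 : 0 ≤ (7 / 128) + (9 / 128) * p + (5 / 8) * p ^ 2 + (-305 / 64) * p ^ 3 + (1083 / 128) * p ^ 4 + (-671 / 128) * p ^ 5 + (15 / 64) * p ^ 6 + (9 / 16) * p ^ 7 := by linarith
    have c1 : 0 ≤ (7 / 32) + (7 / 16) * p + (129 / 64) * p ^ 2 + (-857 / 64) * p ^ 3 + (267 / 16) * p ^ 4 + (-69 / 16) * p ^ 5 + (-3 / 2) * p ^ 6 := by linarith
    have c2 : 0 ≤ (41 / 128) + (111 / 128) * p + (137 / 64) * p ^ 2 + (-101 / 8) * p ^ 3 + (33 / 4) * p ^ 4 + 1 * p ^ 5 := by linarith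
    have c3 : 0 ≤ (5 / 32) + (1 / 2) * p + (3 / 4) * p ^ 2 + (-4) * p ^ 3 := by linarith
    refine le_trans (b := ((7 / 128) + (9 / 128) * p + (5 / 8) * p ^ 2 + (-305 / 64) * p ^ 3 + (1083 / 128) * p ^ 4 + (-671 / 128) * p ^ 5 + (15 / 64) * p ^ 6 + (9 / 16) * p ^ 7) + ((7 / 32) + (7 / 16) * p + (129 / 64) * p ^ 2 + (-857 / 64) * p ^ 3 + (267 / 16) * p ^ 4 + (-69 / 16) * p ^ 5 + (-3 / 2) * p ^ 6) * k + ((41 / 128) + (111 / 128) * p + (137 / 64) * p ^ 2 + (-101 / 8) * p ^ 3 + (33 / 4) * p ^ 4 + 1 * p ^ 5) * k ^ 2 + ((5 / 32) + (1 / 2) * p + (3 / 4) * p ^ 2 + (-4) * p ^ 3) * k ^ 3) (by positivity) (le_of_eq ?_)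
    simp only [sum_range_succ, range_zero, sum_empty, ff, mulc, qc]
    push_cast
    ring

/-- one leaf `1/8`, at least three leaves `1/2` -/
theorem claim_e4 (p : ℝ) (hp0 : 0 ≤ p) (hp1 : p ≤ 1 / 32) :
    InW (13 / 8 + p) ((1 + C (1 / 2 : ℝ) * (X - 1)) * ((1 + C (1 / 2 : ℝ) * (X - 1)) *
      ((1 + C (1 / 2 : ℝ) * (X - 1)) * (1 + C (1 / 8 + p) * (X - 1) + C (1 / 16 - p / 2) * (X - 1) ^ 2)))) := by
  rw [← PS_qc, PS_mulc 2 _ _ rfl, PS_mulc 3 _ _ (by simp [mulc, qc]), PS_mulc 4 _ _ (by simp [mulc, qc])]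
  have q1 : 0 ≤ p := hp0
  have q2 : 0 ≤ p ^ 2 := pow_nonneg hp0 2
  have r2 : p ^ 2 ≤ 1 / 32 * p := by
    have := mul_le_mul_of_nonneg_right hp1 q1
    calc p ^ 2 = p * p := by ring
      _ ≤ 1 / 32 * p := this
  have q3 : 0 ≤ p ^ 3 := pow_nonneg hp0 3
  have r3 : p ^ 3 ≤ 1 / 32 * p ^ 2 := by
    have := mul_le_mul_of_nonneg_right hp1 q2
    calc p ^ 3 = p * p ^ 2 := by ring
      _ ≤ 1 / 32 * p ^ 2 := this
  have q4 : 0 ≤ p ^ 4 := pow_nonneg hp0 4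
  have r4 : p ^ 4 ≤ 1 / 32 * p ^ 3 := by
    have := mul_le_mul_of_nonneg_right hp1 q3
    calc p ^ 4 = p * p ^ 3 := by ring
      _ ≤ 1 / 32 * p ^ 3 := this
  have q5 : 0 ≤ p ^ 5 := pow_nonneg hp0 5
  have r5 : p ^ 5 ≤ 1 / 32 * p ^ 4 := by
    have := mul_le_mul_of_nonneg_right hp1 q4
    calc p ^ 5 = p * p ^ 4 := by ring
      _ ≤ 1 / 32 * p ^ 4 := this
  have q6 : 0 ≤ p ^ 6 := pow_nonneg hp0 6
  have r6 : p ^ 6 ≤ 1 / 32 * p ^ 5 := by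
    have := mul_le_mul_of_nonneg_right hp1 q5
    calc p ^ 6 = p * p ^ 5 := by ring
      _ ≤ 1 / 32 * p ^ 5 := this
  have q7 : 0 ≤ p ^ 7 := pow_nonneg hp0 7
  have r7 : p ^ 7 ≤ 1 / 32 * p ^ 6 := by
    have := mul_le_mul_of_nonneg_right hp1 q6
    calc p ^ 7 = p * p ^ 6 := by ring
      _ ≤ 1 / 32 * p ^ 6 := this
  apply inW_PS' 5 _ _ 2 (by push_cast; linarith)
  · intro n hn
    interval_cases n
    · refine le_trans (b := (15 / 128) + (-3 / 16) * p) (by linarith) (le_of_eq ?_)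
      simp [sum_range_succ, lev, coeff_ab_zero, coeff_ab_pos, Nat.factorial, mulc, qc]
      try ring
    · refine le_trans (b := (165 / 1024) + (-1 / 8) * p + (3 / 16) * p ^ 2) (by linarith) (le_of_eq ?_)
      simp [sum_range_succ, lev, coeff_ab_zero, coeff_ab_pos, Nat.factorial, mulc, qc]
      try ring
  · intro k
    have hk : (0 : ℝ) ≤ k := k.cast_nonneg
    have c0 : 0 ≤ (137943 / 33554432) + (-167481 / 4194304) * p + (75303 / 524288) * p ^ 2 + (-16737 / 65536) * p ^ 3 + (3101 / 8192) * p ^ 4 + (-739 / 1024) * p ^ 5 + (101 / 128) * p ^ 6 + (-3 / 16) * p ^ 7 := by linarith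
    have c1 : 0 ≤ (17991 / 131072) + (-156475 / 131072) * p + (12425 / 16384) * p ^ 2 + (25 / 1024) * p ^ 3 + (229 / 128) * p ^ 4 + (-103 / 32) * p ^ 5 + (5 / 4) * p ^ 6 := by linarith
    have c2 : 0 ≤ (13287 / 65536) + (-2725 / 4096) * p + (-703 / 512) * p ^ 2 + (-1 / 16) * p ^ 3 + (63 / 16) * p ^ 4 + (-3) * p ^ 5 := by linarith
    have c3 : 0 ≤ (381 / 1024) + (923 / 512) * p + (-163 / 64) * p ^ 2 + (-7 / 8) * p ^ 3 + 3 * p ^ 4 := by linarith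
    have c4 : 0 ≤ (147 / 512) + (77 / 64) * p + (-7 / 8) * p ^ 2 + (-1) * p ^ 3 := by linarith
    refine le_trans (b := ((137943 / 33554432) + (-167481 / 4194304) * p + (75303 / 524288) * p ^ 2 + (-16737 / 65536) * p ^ 3 + (3101 / 8192) * p ^ 4 + (-739 / 1024) * p ^ 5 + (101 / 128) * p ^ 6 + (-3 / 16) * p ^ 7) + ((17991 / 131072) + (-156475 / 131072) * p + (12425 / 16384) * p ^ 2 + (25 / 1024) * p ^ 3 + (229 / 128) * p ^ 4 + (-103 / 32) * p ^ 5 + (5 / 4) * p ^ 6) * k + ((13287 / 65536) + (-2725 / 4096) * p + (-703 / 512) * p ^ 2 + (-1 / 16) * p ^ 3 + (63 / 16) * p ^ 4 + (-3) * p ^ 5) * k ^ 2 + ((381 / 1024) + (923 / 512) * p + (-163 / 64) * p ^ 2 + (-7 / 8) * p ^ 3 + 3 * p ^ 4) * k ^ 3 + ((147 / 512) + (77 / 64) * p + (-7 / 8) * p ^ 2 + (-1) * p ^ 3) * k ^ 4) (by positivity) (le_of_eq ?_)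
    simp only [sum_range_succ, range_zero, sum_empty, ff, mulc, qc]
    push_cast
    ring

/-- one leaf `1/4`, at least four leaves `1/2` -/
theorem claim_f5 (p : ℝ) (hp0 : 0 ≤ p) (hp1 : p ≤ 1 / 64) :
    InW (9 / 4 + p) ((1 + C (1 / 2 : ℝ) * (X - 1)) * ((1 + C (1 / 2 : ℝ) * (X - 1)) *
      ((1 + C (1 / 2 : ℝ) * (X - 1)) * ((1 + C (1 / 2 : ℝ) * (X - 1)) *
      (1 + C (1 / 4 + p) * (X - 1) + C (1 / 4 - p) * (X - 1) ^ 2))))) := by
  rw [← PS_qc, PS_mulc 2 _ _ rfl, PS_mulc 3 _ _ (by simp [mulc, qc]), PS_mulc 4 _ _ (by simp [mulc, qc]), PS_mulc 5 _ _ (by simp [mulc, qc])]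
  have q1 : 0 ≤ p := hp0
  have q2 : 0 ≤ p ^ 2 := pow_nonneg hp0 2
  have r2 : p ^ 2 ≤ 1 / 64 * p := by
    have := mul_le_mul_of_nonneg_right hp1 q1
    calc p ^ 2 = p * p := by ring
      _ ≤ 1 / 64 * p := this
  have q3 : 0 ≤ p ^ 3 := pow_nonneg hp0 3
  have r3 : p ^ 3 ≤ 1 / 64 * p ^ 2 := by
    have := mul_le_mul_of_nonneg_right hp1 q2
    calc p ^ 3 = p * p ^ 2 := by ring
      _ ≤ 1 / 64 * p ^ 2 := this
  have q4 : 0 ≤ p ^ 4 := pow_nonneg hp0 4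
  have r4 : p ^ 4 ≤ 1 / 64 * p ^ 3 := by
    have := mul_le_mul_of_nonneg_right hp1 q3
    calc p ^ 4 = p * p ^ 3 := by ring
      _ ≤ 1 / 64 * p ^ 3 := this
  have q5 : 0 ≤ p ^ 5 := pow_nonneg hp0 5
  have r5 : p ^ 5 ≤ 1 / 64 * p ^ 4 := by
    have := mul_le_mul_of_nonneg_right hp1 q4
    calc p ^ 5 = p * p ^ 4 := by ring
      _ ≤ 1 / 64 * p ^ 4 := this
  have q6 : 0 ≤ p ^ 6 := pow_nonneg hp0 6
  have r6 : p ^ 6 ≤ 1 / 64 * p ^ 5 := by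
    have := mul_le_mul_of_nonneg_right hp1 q5
    calc p ^ 6 = p * p ^ 5 := by ring
      _ ≤ 1 / 64 * p ^ 5 := this
  have q7 : 0 ≤ p ^ 7 := pow_nonneg hp0 7
  have r7 : p ^ 7 ≤ 1 / 64 * p ^ 6 := by
    have := mul_le_mul_of_nonneg_right hp1 q6
    calc p ^ 7 = p * p ^ 6 := by ring
      _ ≤ 1 / 64 * p ^ 6 := this
  have q8 : 0 ≤ p ^ 8 := pow_nonneg hp0 8
  have r8 : p ^ 8 ≤ 1 / 64 * p ^ 7 := by
    have := mul_le_mul_of_nonneg_right hp1 q7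
    calc p ^ 8 = p * p ^ 7 := by ring
      _ ≤ 1 / 64 * p ^ 7 := this
  apply inW_PS' 6 _ _ 4 (by push_cast; linarith)
  · intro n hn
    interval_cases n
    · refine le_trans (b := (1 / 16) + (-1 / 8) * p) (by linarith) (le_of_eq ?_)
      simp [sum_range_succ, lev, coeff_ab_zero, coeff_ab_pos, Nat.factorial, mulc, qc]
      try ring
    · refine le_trans (b := (3 / 32) + (-3 / 32) * p + (1 / 8) * p ^ 2) (by linarith) (le_of_eq ?_)
      simp [sum_range_succ, lev, coeff_ab_zero, coeff_ab_pos, Nat.factorial, mulc, qc]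
      try ring
    · refine le_trans (b := (27 / 512) + (35 / 256) * p + (3 / 16) * p ^ 2 + (-1 / 16) * p ^ 3) (by linarith) (le_of_eq ?_)
      simp [sum_range_succ, lev, coeff_ab_zero, coeff_ab_pos, Nat.factorial, mulc, qc]
      try ring
    · refine le_trans (b := (7 / 512) + (331 / 1024) * p + (9 / 256) * p ^ 2 + (-29 / 192) * p ^ 3 + (1 / 48) * p ^ 4) (by linarith) (le_of_eq ?_)
      simp [sum_range_succ, lev, coeff_ab_zero, coeff_ab_pos, Nat.factorial, mulc, qc]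
      try ring
  · intro k
    have hk : (0 : ℝ) ≤ k := k.cast_nonneg
    have c0 : 0 ≤ (171843 / 262144) + (7159635 / 131072) * p + (-4084619 / 32768) * p ^ 2 + (672447 / 8192) * p ^ 3 + (19605 / 2048) * p ^ 4 + (-17159 / 512) * p ^ 5 + (1839 / 128) * p ^ 6 + (-75 / 32) * p ^ 7 + (1 / 8) * p ^ 8 := by linarith
    have c1 : 0 ≤ (484527 / 262144) + (10519265 / 65536) * p + (-5038189 / 16384) * p ^ 2 + (591901 / 4096) * p ^ 3 + (51549 / 1024) * p ^ 4 + (-14765 / 256) * p ^ 5 + (929 / 64) * p ^ 6 + (-17 / 16) * p ^ 7 := by linarith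
    have c2 : 0 ≤ (6891 / 2048) + (370179 / 2048) * p + (-150769 / 512) * p ^ 2 + (5277 / 64) * p ^ 3 + (959 / 16) * p ^ 4 + (-253 / 8) * p ^ 5 + (7 / 2) * p ^ 6 := by linarith
    have c3 : 0 ≤ (7083 / 2048) + (49319 / 512) * p + (-2191 / 16) * p ^ 2 + (91 / 8) * p ^ 3 + (213 / 8) * p ^ 4 + (-11 / 2) * p ^ 5 := by linarith
    have c4 : 0 ≤ (99 / 64) + (97 / 4) * p + (-31) * p ^ 2 + (-4) * p ^ 3 + 4 * p ^ 4 := by linarith
    have c5 : 0 ≤ (15 / 64) + (37 / 16) * p + (-11 / 4) * p ^ 2 + (-1) * p ^ 3 := by linarith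
    refine le_trans (b := ((171843 / 262144) + (7159635 / 131072) * p + (-4084619 / 32768) * p ^ 2 + (672447 / 8192) * p ^ 3 + (19605 / 2048) * p ^ 4 + (-17159 / 512) * p ^ 5 + (1839 / 128) * p ^ 6 + (-75 / 32) * p ^ 7 + (1 / 8) * p ^ 8) + ((484527 / 262144) + (10519265 / 65536) * p + (-5038189 / 16384) * p ^ 2 + (591901 / 4096) * p ^ 3 + (51549 / 1024) * p ^ 4 + (-14765 / 256) * p ^ 5 + (929 / 64) * p ^ 6 + (-17 / 16) * p ^ 7) * k + ((6891 / 2048) + (370179 / 2048) * p + (-150769 / 512) * p ^ 2 + (5277 / 64) * p ^ 3 + (959 / 16) * p ^ 4 + (-253 / 8) * p ^ 5 + (7 / 2) * p ^ 6) * k ^ 2 + ((7083 / 2048) + (49319 / 512) * p + (-2191 / 16) * p ^ 2 + (91 / 8) * p ^ 3 + (213 / 8) * p ^ 4 + (-11 / 2) * p ^ 5) * k ^ 3 + ((99 / 64) + (97 / 4) * p + (-31) * p ^ 2 + (-4) * p ^ 3 + 4 * p ^ 4) * k ^ 4 + ((15 / 64) + (37 / 16) * p + (-11 / 4) * p ^ 2 + (-1) * p ^ 3) * k ^ 5) (by positivity)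 (le_of_eq ?_)
    simp only [sum_range_succ, range_zero, sum_empty, ff, mulc, qc]
    push_cast
    ring

end Pool.Agent.Lib_helper26.SRC
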