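import Pool.Agent.Lib_helper26.SRC.Claims2

set_option autoImplicit false

/-! # The two exceptional stars `(1/4, 1/2)` and `(1/4, 1/2, 1/2)`, and small leaves -/

namespace Pool.Agent.Lib_helper26.SRC

open PowerSeries Finset Pool.Agent.Lib_helper36.SRC Pool.Agent.Lib_helper79.SRC

/-- the coefficients of `f (1 + a y + μ y^2 + η y^3)` -/
noncomputable def kq (f a μ η : ℝ) : ℕ → ℝ
  | 0 => f * (1 - a + μ - η)
  | 1 => f * (a - 2 * μ + 3 * η)
  | 2 => f * (μ - 3 * η)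
  | 3 => f * η
  | _ => 0

/-- the coefficients of `1 - 2 q` -/
noncomputable def om (q : ℕ → ℝ) : ℕ → ℝ
  | 0 => 1 - 2 * q 0
  | k + 1 => -(2 * q (k + 1))

/-- the coefficients of `q x - y / 4` -/
noncomputable def sh (q : ℕ → ℝ) : ℕ → ℝ
  | 0 => 1 / 4
  | 1 => q 0 - 1 / 4
  | k + 2 => q (k + 1)

lemma PS_om (d : ℕ) (q : ℕ → ℝ) : PS d (om q) = 1 - 2 * PS d q := by
  unfold PS
  rw [sum_range_succ', sum_range_succ' (fun k => C (q k) * (X : ℝ⟦X⟧) ^ k)]
  have e : ∀ k ∈ range d, C (om q (k + 1)) * (X : ℝ⟦X⟧) ^ (k + 1)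
      = (-2) * (C (q (k + 1)) * X ^ (k + 1)) := by
    intro k _
    rw [om, map_neg, map_mul, map_ofNat]; ring
  rw [sum_congr rfl e, ← mul_sum, om, map_sub, map_mul, map_ofNat, map_one]
  simp only [pow_zero, mul_one]
  ring

lemma PS_sh (q : ℕ → ℝ) : PS 4 (sh q) = PS 3 q * X + C (-1 / 4) * (X - 1) := by
  unfold PS
  simp only [sum_range_succ, range_zero, sum_empty, sh, pow_zero, mul_one]
  rw [map_sub]
  have : (C (-1 / 4 : ℝ) : ℝ⟦X⟧) = -C (1 / 4) := by rw [← map_neg]; congr 1; norm_num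
  rw [this]
  ring

theorem exA_K1 : InW (1 / 8) (PS 3 (kq (1 / 3) (1 / 8) (-1 / 128) (1 / 192))) := by
  apply inW_PS' 3 _ _ 1 (by norm_num)
  · intro n hn
    interval_cases n
    · simp [sum_range_succ, lev, coeff_ab_zero, coeff_ab_pos]
      norm_num [kq]
  · intro k
    simp only [sum_range_succ, range_zero, sum_empty, ff, kq]
    have hk : (0 : ℝ) ≤ k := k.cast_nonneg
    norm_num
    ring_nf
    positivity

theorem exA_K2 : InW (-1 / 4) (1 - 2 * PS 3 (kq (1 / 3) (1 / 8) (-1 / 128) (1 / 192))) := by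
  rw [← PS_om]
  apply inW_PS' 3 _ _ 1 (by norm_num)
  · intro n hn
    interval_cases n
    · simp [sum_range_succ, lev, coeff_ab_zero, coeff_ab_pos]
      norm_num [kq, om]
  · intro k
    have hk : (0 : ℝ) ≤ k := k.cast_nonneg
    refine le_trans (b := (625 / 147456 : ℝ) + (911 / 36864) * (k : ℝ) + (17 / 768) * (k : ℝ) ^ 2) (by positivity) (le_of_eq ?_)
    simp only [sum_range_succ, range_zero, sum_empty, ff, kq, om]
    push_cast
    ring

theorem exA_H : InW (7 / 8) ((1 + C (1 / 2 : ℝ) * (X - 1)) *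
    (PS 3 (kq (1 / 3) (1 / 8) (-1 / 128) (1 / 192)) * X + C (-1 / 4) * (X - 1))) := by
  rw [← PS_sh, PS_mulc 4 _ _ rfl]
  apply inW_PS' 5 _ _ 2 (by norm_num)
  · intro n hn
    interval_cases n <;>
    · simp [sum_range_succ, lev, coeff_ab_zero, coeff_ab_pos]
      norm_num [mulc, sh, kq]
  · intro k
    simp only [sum_range_succ, range_zero, sum_empty, ff, kq, sh, mulc]
    have hk : (0 : ℝ) ≤ k := k.cast_nonneg
    norm_num
    ring_nf
    positivity

theorem exB_K1 : InW (3 / 16) (PS 3 (kq (2 / 7) (3 / 16) (-1 / 80) (1 / 112))) := by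
  apply inW_PS' 3 _ _ 1 (by norm_num)
  · intro n hn
    interval_cases n
    · simp [sum_range_succ, lev, coeff_ab_zero, coeff_ab_pos]
      norm_num [kq]
  · intro k
    simp only [sum_range_succ, range_zero, sum_empty, ff, kq]
    have hk : (0 : ℝ) ≤ k := k.cast_nonneg
    norm_num
    ring_nf
    positivity

theorem exB_K2 : InW (-1 / 4) (1 - 2 * PS 3 (kq (2 / 7) (3 / 16) (-1 / 80) (1 / 112))) := by
  rw [← PS_om]
  apply inW_PS' 3 _ _ 1 (by norm_num)
  · intro n hn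
    interval_cases n
    · simp [sum_range_succ, lev, coeff_ab_zero, coeff_ab_pos]
      norm_num [kq, om]
  · intro k
    have hk : (0 : ℝ) ≤ k := k.cast_nonneg
    refine le_trans (b := (25 / 50176 : ℝ) + (345 / 12544) * (k : ℝ) + (457 / 15680) * (k : ℝ) ^ 2) (by positivity) (le_of_eq ?_)
    simp only [sum_range_succ, range_zero, sum_empty, ff, kq, om]
    push_cast
    ring

theorem exB_H : InW (21 / 16) ((1 + C (1 / 2 : ℝ) * (X - 1)) * ((1 + C (1 / 2 : ℝ) * (X - 1)) *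
    (PS 3 (kq (2 / 7) (3 / 16) (-1 / 80) (1 / 112)) * X + C (-1 / 4) * (X - 1)))) := by
  rw [← PS_sh, PS_mulc 4 _ _ rfl, PS_mulc 5 _ _ (by simp [mulc, sh, kq])]
  apply inW_PS' 6 _ _ 3 (by norm_num)
  · intro n hn
    interval_cases n <;>
    · simp [sum_range_succ, lev, coeff_ab_zero, coeff_ab_pos, Nat.factorial]
      norm_num [mulc, sh, kq]
  · intro k
    simp only [sum_range_succ, range_zero, sum_empty, ff, kq, sh, mulc]
    have hk : (0 : ℝ) ≤ k := k.cast_nonneg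
    norm_num
    ring_nf
    positivity

/-- **N3**, a small leaf -/
theorem claim3 (s p : ℝ) (hp : 0 < p) (hps : 2 * p ≤ s) (hs : s ≤ 1 / 16) :
    InW (2 * (1 / 2) + (s + p)) ((1 + C (1 / 2 : ℝ) * (X - 1)) ^ 2 * (1 + C (s + p) * (X - 1)
      + C (4 * s * (s - p)) * (X - 1) ^ 2)) := by
  have hs0 : 0 < s := by linarith
  have h1 : 0 ≤ s * (s - p) := mul_nonneg hs0.le (by linarith)
  have h2 : s * (s - p) ≤ s / 16 := by nlinarith
  have h3 : 0 ≤ (s + p) * (s * (s - p)) := by positivity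
  have h4 : (s + p) * (s * (s - p)) ≤ (3 / 32) * (s / 16) := by
    apply mul_le_mul _ h2 h1 (by norm_num); linarith
  have h5 : 0 ≤ (s + p) ^ 2 := by positivity
  have h6 : (s + p) ^ 2 ≤ (3 / 32) * (s + p) := by nlinarith
  apply inW_coin2_Q
  · linarith
  · nlinarith
  · nlinarith
  · nlinarith
  · nlinarith
  · nlinarith
  · have h7 : 0 ≤ 4 * s * (s - p) := by nlinarith
    have h8 : 4 * s * (s - p) ≤ s / 4 := by nlinarith
    have e1 : 2 * (1 / 2 : ℝ) + (s + p) - 1 = s + p := by ring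
    rw [e1]
    set m := s + p with hm
    set c := 4 * s * (s - p) with hc
    have hm1 : m ≤ 3 / 32 := by linarith
    have hm0 : 0 < m := by linarith
    have hc1 : c ≤ m / 4 := by linarith
    have hmc : m * c ≤ 1 / 256 := by nlinarith
    have hmc0 : 0 ≤ m * c := by positivity
    have hmm : m ^ 2 ≤ 1 / 64 := by nlinarith
    -- `r0 + r1 <= 3 / 4`, `r1 >= 1 / 8`
    have hr1 : 1 / 8 ≤ 2 * (1 / 2 : ℝ) ^ 2 * ((1 - 1 / 2) * (m - 2 * c) + 1 / 2 * (1 - m + c))
      + 2 * (1 / 2) * (1 - 1 / 2) * (m ^ 2 - 2 * c - m * c) + (1 - 1 / 2) ^ 2 * (m * c) := by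
      nlinarith [sq_nonneg m]
    have hr : (1 - 1 / 2) * (2 * (1 / 2 : ℝ) ^ 2 * (1 - m + c) + (1 - 1 / 2) * (m ^ 2 - 2 * c - m * c))
      + (2 * (1 / 2) ^ 2 * ((1 - 1 / 2) * (m - 2 * c) + 1 / 2 * (1 - m + c))
      + 2 * (1 / 2) * (1 - 1 / 2) * (m ^ 2 - 2 * c - m * c) + (1 - 1 / 2) ^ 2 * (m * c)) ≤ 3 / 4 := by
      nlinarith
    calc _ ≤ m * (3 / 4) := mul_le_mul_of_nonneg_left hr hm0.le
      _ ≤ 1 / 8 := by linarith
      _ ≤ _ := hr1

end Pool.Agent.Lib_helper26.SRC
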