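import Pool.Agent.Lib_helper26.SRC.Box2
import Pool.Agent.Lib_helper26.SRC.Claims3

set_option autoImplicit false

/-! # Every star can be replaced by the honest star of the same size -/

namespace Pool.Agent.Lib_helper26.SRC

open PowerSeries Finset Pool.Agent.Lib_helper36.SRC Pool.Agent.Lib_helper36.SRC.RT
  Pool.Agent.Lib_helper79.SRC

/-- the star with `l` leaves and no half-edges -/
noncomputable def hon (l : ℕ) : RT := node 0 (List.replicate l (lf 0))

lemma size_hon (l : ℕ) : size (hon l) = l + 1 := by
  unfold hon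
  rw [size_node]
  congr 1
  induction l with
  | zero => rw [List.replicate_zero, sizeL_nil]
  | succ l ih => rw [List.replicate_succ, sizeL_cons, ih, size_lf]; ring

lemma t_hon (l : ℕ) : t (hon l) = (1 / 2) ^ (l + 1) := by
  unfold hon t; simp

lemma sizeL_map_lf (as : List ℕ) : sizeL (as.map lf) = as.length := by
  induction as with
  | nil => rw [List.map_nil, sizeL_nil]; rfl
  | cons a as ih => rw [List.map_cons, sizeL_cons, ih, size_lf, List.length_cons]; ring

lemma t_map_lf (h : ℕ) (as : List ℕ) :
    t (node h (as.map lf)) = (1 / 2) ^ (h + as.length + 1) := by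
  unfold t; simp

lemma exists_max (as : List ℕ) (h : as ≠ []) : ∃ a bs, as.Perm (a :: bs) ∧ ∀ b ∈ bs, b ≤ a := by
  induction as with
  | nil => exact absurd rfl h
  | cons x xs ih =>
    by_cases hx : xs = []
    · subst hx; exact ⟨x, [], List.Perm.refl _, by simp⟩
    · obtain ⟨a, bs, hp, hb⟩ := ih hx
      rcases le_total x a with h' | h'
      · refine ⟨a, x :: bs, (hp.cons x).trans (List.Perm.swap _ _ _), ?_⟩
        intro b hb'
        rcases List.mem_cons.1 hb' with rfl | h2
        · exact h'
        · exact hb b h2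
      · refine ⟨x, a :: bs, hp.cons x, ?_⟩
        intro b hb'
        rcases List.mem_cons.1 hb' with rfl | h2
        · exact h'
        · exact (hb b h2).trans h'

lemma half_pow_mono {m k : ℕ} (h : m ≤ k) : ((1 : ℝ) / 2) ^ k ≤ (1 / 2) ^ m :=
  pow_le_pow_of_le_one (by norm_num) (by norm_num) h

/-- the claim of N2 for all stars -/
lemma claimN2 {n : ℕ} (hn : GoodUpTo n) (a b : ℕ) (cs : List ℕ) (hcs : cs.length ≤ n)
    (hab : b + 1 ≤ a)
    (hcb : ∀ c ∈ cs, c ≤ b + 1) (ht : a + 1 < cs.length + 2 + 1) (s1 s2 p : ℝ)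
    (hs1 : s1 = (1 / 2) ^ (a + 1)) (hs2 : s2 = (1 / 2) ^ (b + 2))
    (hp : p = (1 / 2) ^ (cs.length + 2 + 1)) :
    InW (β (node 0 (cs.map lf)) + (s1 + s2 + p)) (B (node 0 (cs.map lf)) *
      (1 + C (s1 + s2 + p) * (X - 1)
      + C (2 * s1 * s2 + (s2 - s1 + p) * (s1 - p)) * (X - 1) ^ 2)) := by
  have hp0 : 0 < p := by rw [hp]; positivity
  have h2p : 2 * p ≤ s1 := by
    have e : 2 * p = (1 / 2) ^ (cs.length + 2) := by rw [hp, pow_succ]; ring
    rw [e, hs1]; exact half_pow_mono (by omega)
  have hss : s1 ≤ s2 := by rw [hs1, hs2]; exact half_pow_mono (by omega)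
  have hs24 : s2 ≤ 1 / 4 := by
    rw [hs2]; refine (half_pow_mono (show 2 ≤ b + 2 by omega)).trans (by norm_num)
  -- one more coin
  have more : ∀ (d : ℕ) (ds : List ℕ), cs.Perm (d :: ds) → s2 ≤ (1 / 2) ^ (d + 1) →
      (s2 ≤ 1 / 8 ∨ (s2 = 1 / 4 ∧ s1 ≤ 1 / 8) ∨
        (s2 = 1 / 4 ∧ s1 = 1 / 4 ∧ ((1 : ℝ) / 2) ^ (d + 1) = 1 / 2 ∧ p ≤ 1 / 16)) →
      InW (β (node 0 (cs.map lf)) + (s1 + s2 + p)) (B (node 0 (cs.map lf)) *
      (1 + C (s1 + s2 + p) * (X - 1)
      + C (2 * s1 * s2 + (s2 - s1 + p) * (s1 - p)) * (X - 1) ^ 2)) := by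
    intro d ds hperm hd hcase
    have hpm : (cs.map lf).Perm (lf d :: ds.map lf) := by
      rw [← List.map_cons]; exact hperm.map lf
    rw [B_perm 0 hpm, β_perm 0 hpm, B_lf_cons, β_lf_cons, t_lf]
    have hlen := hperm.length_eq
    rw [List.length_cons] at hlen
    have hB : InW (β (node 0 (ds.map lf))) (B (node 0 (ds.map lf))) :=
      hn.BL 0 _ (by rw [sizeL_map_lf]; omega)
    have hw : ((1 : ℝ) / 2) ^ (d + 1) ≤ 1 / 2 := by
      refine (half_pow_mono (show 1 ≤ d + 1 by omega)).trans (by norm_num)
    refine (hB.mul (claim2 s1 s2 ((1 / 2) ^ (d + 1)) p hp0 h2p hss hd hw hcase)).congr ?_ ?_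
    · ring
    · ring
  have hd' : ∀ c ∈ cs, s2 ≤ (1 / 2) ^ (c + 1) := by
    intro c hc
    rw [hs2]; exact half_pow_mono (by have := hcb c hc; omega)
  rcases Nat.eq_zero_or_pos b with hb | hb
  · subst hb
    have hs2' : s2 = 1 / 4 := by rw [hs2]; norm_num
    rcases Nat.lt_or_ge 1 a with ha | ha
    · -- `s1 <= 1/8`
      have hs1' : s1 ≤ 1 / 8 := by
        rw [hs1]; refine (half_pow_mono (show 3 ≤ a + 1 by omega)).trans (by norm_num)
      cases cs with
      | nil => simp at ht; omega
      | cons d ds => exact more d ds (List.Perm.refl _) (hd' d (by simp)) (Or.inr (Or.inl ⟨hs2', hs1'⟩))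
    · have ha1 : a = 1 := by omega
      subst ha1
      have hs1' : s1 = 1 / 4 := by rw [hs1]; norm_num
      by_cases hz : 0 ∈ cs
      · obtain ⟨l1, l2, rfl⟩ := List.append_of_mem hz
        refine more 0 (l1 ++ l2) List.perm_middle (hd' 0 hz) (Or.inr (Or.inr ⟨hs2', hs1', by norm_num, ?_⟩))
        rw [hp]
        refine (half_pow_mono (show 4 ≤ (l1 ++ 0 :: l2).length + 2 + 1 by simp; omega)).trans (by norm_num)
      · have hall : ∀ c ∈ cs, c = 1 := by
          intro c hc
          have h1 := hcb c hc
          have h2 : c ≠ 0 := fun h => hz (h ▸ hc)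
          omega
        match cs, hcs, hall, hp with
        | [], _, _, hp =>
          have hp' : p = 1 / 8 := by rw [hp]; norm_num
          subst hs1' hs2' hp'
          have := quad (5 / 8) (9 / 64) (by norm_num) (by norm_num) (by norm_num) (by norm_num)
          refine this.congr ?_ ?_
          · rw [List.map_nil]
            have : β (node 0 []) = 0 := by unfold β; rw [kids_node]; rfl
            rw [this]; norm_num
          · rw [List.map_nil]
            have : B (node 0 []) = 1 := by unfold B; rw [kids_node]; rfl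
            rw [this]
            norm_num
        | [d], _, hall, hp =>
          have hd1 : d = 1 := hall d (by simp)
          subst hd1
          have hp' : p = 1 / 16 := by rw [hp]; norm_num
          subst hs1' hs2' hp'
          refine claim_q3.congr ?_ ?_
          · rw [List.map_cons, List.map_nil, β_lf_cons, t_lf]
            have : β (node 0 []) = 0 := by unfold β; rw [kids_node]; rfl
            rw [this]; norm_num
          · rw [List.map_cons, List.map_nil, B_lf_cons, t_lf]
            have : B (node 0 []) = 1 := by unfold B; rw [kids_node]; rfl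
            rw [this]
            norm_num
        | d :: e :: ds, hcs, hall, hp =>
          have hd1 : d = 1 := hall d (by simp)
          have he1 : e = 1 := hall e (by simp)
          subst hd1 he1
          have hp' : p ≤ 1 / 32 := by
            rw [hp]
            refine (half_pow_mono (show 5 ≤ (1 :: 1 :: ds).length + 2 + 1 by simp)).trans (by norm_num)
          subst hs1' hs2'
          have hB : InW (β (node 0 (ds.map lf))) (B (node 0 (ds.map lf))) :=
            hn.BL 0 _ (by rw [sizeL_map_lf]; simp at hcs; omega)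
          have h4 : ((1 : ℝ) / 2) ^ (1 + 1) = 1 / 4 := by norm_num
          refine (hB.mul (claim_q4 p hp0.le hp')).congr ?_ ?_
          · rw [List.map_cons, List.map_cons, β_lf_cons, β_lf_cons, t_lf, h4]
            ring
          · rw [List.map_cons, List.map_cons, B_lf_cons, B_lf_cons, t_lf, h4]
            have e1 : (1 / 4 + 1 / 4 + p : ℝ) = 1 / 2 + p := by ring
            have e2 : (2 * (1 / 4) * (1 / 4) + (1 / 4 - 1 / 4 + p) * (1 / 4 - p) : ℝ)
              = 1 / 8 + p / 4 - p ^ 2 := by ring
            rw [e1, e2]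
            ring
  · -- `s2 <= 1/8`
    have hs2' : s2 ≤ 1 / 8 := by
      rw [hs2]; refine (half_pow_mono (show 3 ≤ b + 2 by omega)).trans (by norm_num)
    cases cs with
    | nil => simp at ht; omega
    | cons d ds => exact more d ds (List.Perm.refl _) (hd' d (by simp)) (Or.inl hs2')

lemma B_rep (h j : ℕ) : B (node h (List.replicate (j + 1) (lf 0)))
    = (1 + C (1 / 2 : ℝ) * (X - 1)) * B (node h (List.replicate j (lf 0))) := by
  rw [List.replicate_succ, B_lf_cons, t_lf]; norm_num

lemma β_rep (h j : ℕ) : β (node h (List.replicate (j + 1) (lf 0)))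
    = 1 / 2 + β (node h (List.replicate j (lf 0))) := by
  rw [List.replicate_succ, β_lf_cons, t_lf]; norm_num

lemma B_nil' (h : ℕ) : B (node h []) = 1 := by unfold B; rw [kids_node]; rfl
lemma β_nil' (h : ℕ) : β (node h []) = 0 := by unfold β; rw [kids_node]; rfl

lemma sizeL_rep (j : ℕ) : sizeL (List.replicate j (lf 0)) = j := by
  have := size_hon j
  unfold hon at this
  rw [size_node] at this
  omega

/-- N3 for all stars -/
theorem goodJ_N3' {n : ℕ} (hn : GoodUpTo n) (a j : ℕ) (R : RT)
    (hs : size (node 0 (lf (a + 1) :: List.replicate j (lf 0))) + size R ≤ n + 1)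
    (ht : a + 2 < j + 1 + 1)
    (ih : GoodJ (node 0 (lf a :: List.replicate j (lf 0))) R) :
    GoodJ (node 0 (lf (a + 1) :: List.replicate j (lf 0))) R := by
  have hs' := hs
  rw [size_node, sizeL_cons, size_lf, sizeL_rep] at hs'
  have hsR := size_pos R
  obtain ⟨s, hsdef⟩ : ∃ s : ℝ, s = (1 / 2) ^ (a + 2) := ⟨_, rfl⟩
  obtain ⟨p, hpdef⟩ : ∃ p : ℝ, p = (1 / 2) ^ (j + 2) := ⟨_, rfl⟩
  have hts : t (lf (a + 1)) = s := by rw [t_lf, hsdef]
  have htp : t (node 0 (lf (a + 1) :: List.replicate j (lf 0))) = p := by
    rw [hpdef]; unfold t; simp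
  have hp0 : 0 < p := by rw [hpdef]; positivity
  have h2p : 2 * p ≤ s := by
    have e : 2 * p = (1 / 2) ^ (j + 1) := by rw [hpdef, pow_succ]; ring
    rw [e, hsdef]; exact half_pow_mono (by omega)
  have hps : p < s := by linarith
  have hBj : ∀ i, i ≤ j → InW (β (node 0 (List.replicate i (lf 0))))
      (B (node 0 (List.replicate i (lf 0)))) := fun i hi => hn.BL 0 _ (by rw [sizeL_rep]; omega)
  rcases Nat.lt_or_ge 1 a with ha | ha
  · -- `s <= 1/16`
    have hs16 : s ≤ 1 / 16 := by
      rw [hsdef]; refine (half_pow_mono (show 4 ≤ a + 2 by omega)).trans (by norm_num)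
    obtain ⟨i, rfl⟩ : ∃ i, j = i + 1 + 1 := ⟨j - 2, by omega⟩
    apply goodJ_N3 hn 0 a _ R hs s p hts htp hps ih
    rw [B_rep, B_rep, β_rep, β_rep]
    refine ((hBj i (by omega)).mul (claim3 s p hp0 h2p hs16)).congr (by ring) (by ring)
  · rcases Nat.eq_zero_or_pos a with ha0 | ha0
    · -- `s = 1/4`
      subst ha0
      have hs4 : s = 1 / 4 := by rw [hsdef]; norm_num
      subst hs4
      match j, ht, hs', htp, hpdef, hBj, hs, ih with
      | 0, ht, _, _, _, _, _, _ => omega
      | 1, _, _, htp, hpdef, _, hs, ih =>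
        have hp' : p = 1 / 8 := by rw [hpdef]; norm_num
        subst hp'
        apply goodJ_N3K hn 0 0 _ R hs (1 / 4) (1 / 8) hts htp
          (PS 3 (kq (1 / 3) (1 / 8) (-1 / 128) (1 / 192))) (exA_K1.congr (by norm_num) rfl)
          (exA_K2.congr (by norm_num) rfl) ih
        rw [B_rep, β_rep, List.replicate_zero, B_nil', β_nil']
        refine exA_H.congr (by norm_num) ?_
        have e1 : (4 * (1 / 4) : ℝ) = 1 := by norm_num
        have e2 : (C (-1 / 4 : ℝ) : ℝ⟦X⟧) = -C (1 / 4) := by rw [← map_neg]; congr 1; norm_num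
        rw [e1, e2, map_one]
        ring
      | 2, _, _, htp, hpdef, _, hs, ih =>
        have hp' : p = 1 / 16 := by rw [hpdef]; norm_num
        subst hp'
        apply goodJ_N3K hn 0 0 _ R hs (1 / 4) (1 / 16) hts htp
          (PS 3 (kq (2 / 7) (3 / 16) (-1 / 80) (1 / 112))) (exB_K1.congr (by norm_num) rfl)
          (exB_K2.congr (by norm_num) rfl) ih
        rw [B_rep, B_rep, β_rep, β_rep, List.replicate_zero, B_nil', β_nil']
        refine exB_H.congr (by norm_num) ?_
        have e1 : (4 * (1 / 4) : ℝ) = 1 := by norm_num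
        have e2 : (C (-1 / 4 : ℝ) : ℝ⟦X⟧) = -C (1 / 4) := by rw [← map_neg]; congr 1; norm_num
        rw [e1, e2, map_one]
        ring
      | 3, _, _, htp, hpdef, _, hs, ih =>
        have hp' : p = 1 / 32 := by rw [hpdef]; norm_num
        subst hp'
        apply goodJ_N3 hn 0 0 _ R hs (1 / 4) (1 / 32) hts htp hps ih
        rw [B_rep, B_rep, B_rep, β_rep, β_rep, β_rep, List.replicate_zero, B_nil', β_nil']
        refine claim_f4.congr (by norm_num) ?_
        norm_num
        ring
      | i + 4, _, hs', htp, hpdef, hBj, hs, ih =>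
        have hp' : p ≤ 1 / 64 := by
          rw [hpdef]; refine (half_pow_mono (show 6 ≤ i + 4 + 2 by omega)).trans (by norm_num)
        apply goodJ_N3 hn 0 0 _ R hs (1 / 4) p hts htp hps ih
        rw [B_rep, B_rep, B_rep, B_rep, β_rep, β_rep, β_rep, β_rep]
        have e1 : (4 * (1 / 4) * (1 / 4 - p) : ℝ) = 1 / 4 - p := by ring
        rw [e1]
        refine ((hBj i (by omega)).mul (claim_f5 p hp0.le hp')).congr (by ring) (by ring)
    · -- `s = 1/8`
      have ha1 : a = 1 := by omega
      subst ha1
      have hs4 : s = 1 / 8 := by rw [hsdef]; norm_num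
      subst hs4
      match j, ht, hs', htp, hpdef, hBj, hs, ih with
      | 0, ht, _, _, _, _, _, _ => omega
      | 1, ht, _, _, _, _, _, _ => omega
      | 2, _, _, htp, hpdef, _, hs, ih =>
        have hp' : p = 1 / 16 := by rw [hpdef]; norm_num
        subst hp'
        apply goodJ_N3 hn 0 1 _ R hs (1 / 8) (1 / 16) hts htp hps ih
        rw [B_rep, B_rep, β_rep, β_rep, List.replicate_zero, B_nil', β_nil']
        refine claim_e3.congr (by norm_num) ?_
        norm_num
        ring
      | i + 3, _, hs', htp, hpdef, hBj, hs, ih =>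
        have hp' : p ≤ 1 / 32 := by
          rw [hpdef]; refine (half_pow_mono (show 5 ≤ i + 3 + 2 by omega)).trans (by norm_num)
        apply goodJ_N3 hn 0 1 _ R hs (1 / 8) p hts htp hps ih
        rw [B_rep, B_rep, B_rep, β_rep, β_rep, β_rep]
        have e1 : (4 * (1 / 8) * (1 / 8 - p) : ℝ) = 1 / 16 - p / 2 := by ring
        rw [e1]
        refine ((hBj i (by omega)).mul (claim_e4 p hp0.le hp')).congr (by ring) (by ring)

lemma t_lf_le_iff (a m : ℕ) (ht : ¬ t (lf a) ≤ (1 / 2) ^ (m + 1)) : a < m := by
  by_contra h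
  apply ht
  rw [t_lf]
  exact half_pow_mono (by omega)

/-- **Normalization**: a star next to an arbitrary tree may be assumed honest. -/
theorem goodJ_of_honest' {n : ℕ} (hn : GoodUpTo n) (R : RT) (l : ℕ) (hl : 1 ≤ l)
    (hs : l + 1 + size R ≤ n + 1) (hH : GoodJ (hon l) R) :
    ∀ (e h : ℕ) (as : List ℕ), h + as.sum = e → as.length = l →
      GoodJ (node h (as.map lf)) R := by
  intro e
  induction e using Nat.strong_induction_on with
  | _ e ih =>
    intro h as he has
    have hsR := size_pos R
    -- thin leaves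
    by_cases hthin : ∃ a ∈ as, t (lf a) ≤ (1 / 2) ^ (h + l + 1)
    · obtain ⟨a, ha, hat⟩ := hthin
      obtain ⟨l1, l2, rfl⟩ := List.append_of_mem ha
      have hp : ((l1 ++ a :: l2).map lf).Perm (lf a :: (l1 ++ l2).map lf) := by
        rw [← List.map_cons]; exact List.perm_middle.map lf
      rw [goodJ_perm h hp, goodJ_move]
      have hlen : (l1 ++ l2).length + 1 = l := by
        rw [← has]; simp; omega
      have ht : t (node h (R :: (l1 ++ l2).map lf)) = (1 / 2) ^ (h + l + 1) := by
        unfold t; rw [hh_node, kids_node, List.length_cons, List.length_map, hlen]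
      rw [← ht] at hat
      apply goodJ_thin_leaf hn _ _ _ hat
      rw [size_node, sizeL_cons, sizeL_map_lf]
      omega
    push Not at hthin
    cases h with
    | succ g =>
      cases as with
      | nil => simp at has; omega
      | cons a bs =>
        have h1 := hthin a (by simp)
        rw [List.length_cons] at has
        rw [List.map_cons]
        apply goodJ_N1 hn g a (bs.map lf) R
        · rw [size_node, sizeL_cons, sizeL_map_lf, size_lf]; omega
        · refine le_of_eq_of_le ?_ h1.le
          unfold t; rw [hh_node, kids_node, List.length_cons, List.length_map, has]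
        · have := ih (g + (a :: bs).sum) (by rw [← he]; omega) g (a :: bs) rfl (by simpa using has)
          rwa [List.map_cons] at this
    | zero =>
      obtain ⟨a, bs, hp1, hb⟩ := exists_max as (by rintro rfl; simp at has; omega)
      have hpm1 : (as.map lf).Perm (lf a :: bs.map lf) := by
        rw [← List.map_cons]; exact hp1.map lf
      have hlen1 := hp1.length_eq
      rw [has, List.length_cons] at hlen1
      have hsum1 := hp1.sum_eq
      rw [List.sum_cons] at hsum1
      have ha1 : a < l := t_lf_le_iff a l (by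
        have := hthin a (hp1.mem_iff.2 (by simp))
        rw [Nat.zero_add] at this
        exact not_le.2 this)
      rw [goodJ_perm 0 hpm1]
      by_cases hb0 : ∀ b ∈ bs, b = 0
      · -- at most one thin leaf
        have hbs : bs.map lf = List.replicate bs.length (lf 0) := by
          rw [List.eq_replicate_of_mem hb0, List.map_replicate]; simp
        rw [hbs]
        rw [hbs] at hpm1
        have hl1 : bs.length + 1 = l := hlen1.symm
        cases a with
        | zero =>
          rw [← List.replicate_succ, hl1]; exact hH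
        | succ a =>
          apply goodJ_N3' hn a bs.length R
          · rw [size_node, sizeL_cons, sizeL_rep, size_lf]; omega
          · omega
          · have := ih (0 + (a :: bs).sum) (by rw [← he, hsum1, List.sum_cons]; omega) 0 (a :: bs) rfl
              (by rw [List.length_cons]; exact hl1)
            rwa [List.map_cons, hbs] at this
      · push Not at hb0
        obtain ⟨x, hx, hx0⟩ := hb0
        obtain ⟨b, cs, hp2, hc⟩ := exists_max bs (List.ne_nil_of_mem hx)
        have hxb : x ≤ b := by
          rcases List.mem_cons.1 (hp2.mem_iff.1 hx) with h' | h'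
          · exact h'.le
          · exact hc x h'
        obtain ⟨b', rfl⟩ : ∃ b', b = b' + 1 := ⟨b - 1, by omega⟩
        have hba : b' + 1 ≤ a := hb _ (hp2.mem_iff.2 (by simp))
        have hpm2 : (lf a :: bs.map lf).Perm (lf a :: lf (b' + 1) :: cs.map lf) := by
          rw [← List.map_cons]; exact (hp2.map lf).cons _
        have hlen2 := hp2.length_eq
        rw [List.length_cons] at hlen2
        rw [goodJ_perm 0 hpm2]
        have htc : t (node 0 (lf a :: lf (b' + 1) :: cs.map lf)) = (1 / 2) ^ (cs.length + 2 + 1) := by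
          unfold t; rw [hh_node, kids_node, List.length_cons, List.length_cons, List.length_map]
          congr 1; omega
        apply goodJ_N2 hn 0 a b' (cs.map lf) R _ _ _ _ rfl rfl rfl
        · rw [htc, t_lf]; exact half_pow_mono (by omega)
        · rw [t_lf, t_lf]; exact half_pow_mono (by omega)
        · rw [htc]
          exact claimN2 hn a b' cs (by omega) hba hc (by omega) _ _ _ (t_lf _) (t_lf _) rfl
        · rw [size_node, sizeL_cons, sizeL_cons, sizeL_map_lf, size_lf, size_lf]; omega

theorem star_eq (c : RT) (hc : IsStar c) : ∃ as : List ℕ, c = node c.hh (as.map lf) ∧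
    as.length = c.kids.length := by
  refine ⟨c.kids.map hh, ?_, by simp⟩
  have h1 : c.kids = (c.kids.map hh).map lf := by
    rw [List.map_map]
    conv_lhs => rw [← List.map_id c.kids]
    apply List.map_congr_left
    intro d hd
    have h2 : IsLeaf d := hc.2 d hd
    have := eta d
    rw [h2] at this
    simp only [id, Function.comp]
    unfold lf
    exact this.symm
  rw [← h1, eta]

/-- **Normalization** -/
theorem goodJ_of_honest {n : ℕ} (hn : GoodUpTo n) (c R : RT) (hc : IsStar c)
    (hs : size c + size R ≤ n + 1) (hH : GoodJ (hon c.kids.length) R) : GoodJ c R := by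
  obtain ⟨as, hcas, hlen⟩ := star_eq c hc
  have hl : 1 ≤ c.kids.length := List.length_pos_iff.2 hc.1
  have hsz : size c = c.kids.length + 1 := by
    conv_lhs => rw [hcas]
    rw [size_node, sizeL_map_lf, hlen]
  rw [hcas]
  exact goodJ_of_honest' hn R _ hl (by omega) hH _ _ _ rfl hlen

end Pool.Agent.Lib_helper26.SRC
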