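import Pool.Agent.Lib_helper79.SRC.AlgZ
import Pool.Agent.Lib_helper79.SRC.Small
import Pool.Agent.Lib_helper36.SRC.Tools

set_option autoImplicit false

/-! # Polynomials in `InW` by their levels -/

namespace Pool.Agent.Lib_helper26.SRC

open PowerSeries Finset Pool.Agent.Lib_helper36.SRC

/-- `∑_{k ≤ d} q_k x^k` -/
noncomputable def PS (d : ℕ) (q : ℕ → ℝ) : ℝ⟦X⟧ := ∑ k ∈ range (d + 1), C (q k) * X ^ k

/-- the level `n` of `x^k` in the frame `ν` -/
noncomputable def lev (ν : ℝ) (k n : ℕ) : ℝ := if k ≤ n then coeff (n - k) (ab (k - ν)) else 0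

theorem inW_PS (d : ℕ) (q : ℕ → ℝ) (ν : ℝ)
    (h : ∀ n : ℕ, 0 ≤ ∑ k ∈ range (d + 1), q k * lev ν k n) : InW ν (PS d q) := by
  have e : PS d q = S (∑ k ∈ range (d + 1), C (q k) * (X ^ k * ab k)) := by
    unfold PS
    rw [map_sum]
    refine sum_congr rfl fun k _ => ?_
    rw [map_mul, S_C, map_mul, S_X_pow, S_ab]
    have := Ex_mul_neg (k : ℝ)
    linear_combination (-(C (q k) * X ^ k)) * this
  rw [e, inW_S_iff]
  intro n
  rw [mul_sum, map_sum]
  refine (h n).trans (le_of_eq (sum_congr rfl fun k _ => ?_))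
  have e2 : ab (-ν) * (C (q k) * (X ^ k * ab k)) = C (q k) * (X ^ k * ab (k - ν)) := by
    have : ab (k - ν) = ab (-ν) * ab k := by rw [← ab_add]; congr 1; ring
    rw [this]; ring
  rw [e2, coeff_C_mul, coeff_X_pow_mul']
  rfl

/-- falling factorials -/
noncomputable def ff (x : ℝ) : ℕ → ℝ
  | 0 => 1
  | k + 1 => ff x k * (x - k)

lemma ff_eq (n k : ℕ) : ff n k = (n.descFactorial k : ℝ) := by
  induction k with
  | zero => simp [ff]
  | succ k ih =>
    rw [ff, ih, Nat.descFactorial_succ]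
    rcases Nat.lt_or_ge n k with h | h
    · rw [Nat.descFactorial_eq_zero_iff_lt.2 h]; simp
    · push_cast [h]; ring

lemma lev_mul (d k n : ℕ) (ν : ℝ) (hk : k ≤ d) :
    lev ν k n * (n.factorial * (n - ν) ^ (d + 1))
      = (n - ν) ^ n * ((k - ν) * ff n k * (n - ν) ^ (d - k)) := by
  unfold lev
  rw [ff_eq]
  split_ifs with hkn
  · have hf : (n.factorial : ℝ) = (n - k).factorial * n.descFactorial k := by
      exact_mod_cast (Nat.factorial_mul_descFactorial hkn).symm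
    have hfp : ((n - k).factorial : ℝ) ≠ 0 := by exact_mod_cast (n - k).factorial_ne_zero
    rcases hkn.eq_or_lt with rfl | hlt
    · rw [Nat.sub_self, coeff_ab_zero, Nat.descFactorial_self]
      obtain ⟨e, rfl⟩ := Nat.exists_eq_add_of_le hk
      rw [Nat.add_sub_cancel_left, pow_succ, pow_add]
      ring
    · rw [coeff_ab_pos (by omega), hf]
      have e1 : ((k : ℝ) - ν + (n - k : ℕ)) = n - ν := by push_cast [hkn]; ring
      rw [e1]
      obtain ⟨e, rfl⟩ := Nat.exists_eq_add_of_lt hlt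
      obtain ⟨g, rfl⟩ := Nat.exists_eq_add_of_le hk
      have e2 : k + e + 1 - k = e + 1 := by omega
      rw [e2] at hfp ⊢
      rw [Nat.add_sub_cancel_left, Nat.add_sub_cancel]
      field_simp
      ring
  · rw [Nat.descFactorial_eq_zero_iff_lt.2 (by omega)]; simp

theorem inW_PS' (d : ℕ) (q : ℕ → ℝ) (ν : ℝ) (N : ℕ) (hν : ν < N)
    (hlow : ∀ n < N, 0 ≤ ∑ k ∈ range (d + 1), q k * lev ν k n)
    (h : ∀ m : ℕ, 0 ≤ ∑ k ∈ range (d + 1),
      q k * ((k - ν) * ff (N + m) k * (N + m - ν) ^ (d - k))) : InW ν (PS d q) := by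
  apply inW_PS
  intro n
  rcases Nat.lt_or_ge n N with hn | hn
  · exact hlow n hn
  · obtain ⟨m, rfl⟩ := Nat.exists_eq_add_of_le hn
    have h1 := h m
    have hpos : 0 < (((N + m : ℕ) : ℝ) - ν) := by
      push_cast
      have : (0 : ℝ) ≤ m := m.cast_nonneg
      linarith
    have hp2 : 0 < ((N + m).factorial : ℝ) * (((N + m : ℕ) : ℝ) - ν) ^ (d + 1) := by
      have : (0 : ℝ) < ((N + m).factorial : ℝ) := by exact_mod_cast (N + m).factorial_pos
      positivity
    refine nonneg_of_mul_nonneg_left ?_ hp2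
    have e : (∑ k ∈ range (d + 1), q k * lev ν k (N + m))
        * (((N + m).factorial : ℝ) * (((N + m : ℕ) : ℝ) - ν) ^ (d + 1))
        = (((N + m : ℕ) : ℝ) - ν) ^ (N + m) * ∑ k ∈ range (d + 1),
      q k * ((k - ν) * ff (N + m) k * (N + m - ν) ^ (d - k)) := by
      rw [sum_mul, mul_sum]
      refine sum_congr rfl fun k hk => ?_
      rw [mul_assoc, lev_mul d k (N + m) ν (by have := mem_range.1 hk; omega)]
      push_cast
      ring
    rw [e]
    exact mul_nonneg (pow_nonneg hpos.le _) h1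

lemma lev_zero_zero (ν : ℝ) : lev ν 0 0 = 1 := by unfold lev; simp [coeff_ab_zero]
lemma lev_zero_one (ν : ℝ) : lev ν 0 1 = -ν := by
  unfold lev; simp [coeff_ab_pos (n := 1) (by omega)]
lemma lev_zero_two (ν : ℝ) : lev ν 0 2 = -ν * (2 - ν) / 2 := by
  unfold lev; rw [if_pos (by omega), Nat.sub_zero, coeff_ab_pos (by omega)]
  have : ((0 : ℕ) : ℝ) = 0 := Nat.cast_zero
  rw [this, Nat.factorial_two, show 2 - 1 = 1 from rfl, pow_one]
  push_cast
  ring
lemma lev_one_two (ν : ℝ) : lev ν 1 2 = 1 - ν := by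
  unfold lev; rw [if_pos (by omega), show 2 - 1 = 1 from rfl, coeff_ab_pos (by omega)]
  simp
lemma lev_self (ν : ℝ) (k : ℕ) : lev ν k k = 1 := by unfold lev; simp [coeff_ab_zero]
lemma lev_lt (ν : ℝ) {k n : ℕ} (h : n < k) : lev ν k n = 0 := by unfold lev; rw [if_neg (by omega)]

/-- multiplication by a coin -/
noncomputable def mulc (s : ℝ) (q : ℕ → ℝ) : ℕ → ℝ
  | 0 => (1 - s) * q 0
  | k + 1 => (1 - s) * q (k + 1) + s * q k

lemma PS_mulc (d : ℕ) (s : ℝ) (q : ℕ → ℝ) (hq : q (d + 1) = 0) :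
    (1 + C s * (X - 1)) * PS d q = PS (d + 1) (mulc s q) := by
  unfold PS
  rw [sum_range_succ' _ (d + 1)]
  have e : ∀ k ∈ range (d + 1), C (mulc s q (k + 1)) * X ^ (k + 1)
      = C (1 - s) * (C (q (k + 1)) * X ^ (k + 1)) + C s * X * (C (q k) * X ^ k) := by
    intro k _
    rw [mulc, map_add, map_mul, map_mul]; ring
  rw [sum_congr rfl e, sum_add_distrib, ← mul_sum, ← mul_sum]
  have e2 : ∑ k ∈ range (d + 1), C (q (k + 1)) * (X : ℝ⟦X⟧) ^ (k + 1)
      = (∑ k ∈ range (d + 1), C (q k) * X ^ k) - C (q 0) := by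
    have h1 := sum_range_succ' (fun k => C (q k) * (X : ℝ⟦X⟧) ^ k) (d + 1)
    have h2 := sum_range_succ (fun k => C (q k) * (X : ℝ⟦X⟧) ^ k) (d + 1)
    rw [hq, map_zero, zero_mul, add_zero] at h2
    simp only [pow_zero, mul_one] at h1
    rw [← h2, h1]; ring
  rw [e2, mulc, map_sub, map_mul, map_sub]
  simp only [map_one, pow_zero, mul_one]
  ring

/-- the coefficients of `1 + m y + c y^2` -/
noncomputable def qc (m c : ℝ) : ℕ → ℝ
  | 0 => 1 - m + c
  | 1 => m - 2 * c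
  | 2 => c
  | _ => 0

lemma PS_qc (m c : ℝ) : PS 2 (qc m c) = 1 + C m * (X - 1) + C c * (X - 1) ^ 2 := by
  unfold PS
  rw [sum_range_succ, sum_range_succ, sum_range_one]
  simp only [qc, map_add, map_sub, map_mul, map_one, map_ofNat]
  ring

end Pool.Agent.Lib_helper26.SRC
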