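import Pool.Agent.Lib_helper6.SRC.Hon
import Pool.Agent.Lib_helper26.SRC.Claims

set_option autoImplicit false

/-! # `κ^l - p y`, `p = 2^-(l+1)` -/

namespace Pool.Agent.Lib_helper26.SRC

open PowerSeries Finset Pool.Agent.Lib_helper36.SRC Pool.Agent.Lib_helper6.SRC

lemma LE_ab_neg {c : ℝ} (hc : c ≤ 0) : LE (ab c) (Ex (-c)) := by
  intro n
  rw [coeff_Ex]
  rcases Nat.eq_zero_or_pos n with h | h
  · subst h; rw [coeff_ab_zero]; simp
  · rw [coeff_ab_pos h]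
    apply div_le_div_of_nonneg_right _ (by positivity)
    have h1 : -c * (-c) ^ (n - 1) = (-c) ^ n := by
      rw [← pow_succ']; congr 1; omega
    rw [← h1]
    rcases le_or_gt 0 (c + n) with h2 | h2
    · have : 0 ≤ (c + n) ^ (n - 1) := pow_nonneg h2 _
      have h3 : 0 ≤ -c * (-c) ^ (n - 1) := mul_nonneg (by linarith) (pow_nonneg (by linarith) _)
      nlinarith
    · have h3 : |c + n| ≤ -c := by rw [abs_of_neg h2]; have : (0 : ℝ) ≤ n := n.cast_nonneg; linarith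
      have h4 : |(c + n) ^ (n - 1)| ≤ (-c) ^ (n - 1) := by
        rw [abs_pow]; exact pow_le_pow_left₀ (abs_nonneg _) h3 _
      have h5 := neg_abs_le ((c + n) ^ (n - 1))
      nlinarith

lemma LE_Ex_mono {a b : ℝ} (ha : 0 ≤ a) (hab : a ≤ b) : LE (Ex a) (Ex b) := by
  intro n
  rw [coeff_Ex, coeff_Ex]
  apply div_le_div_of_nonneg_right _ (by positivity)
  exact pow_le_pow_left₀ ha hab n

lemma LE_one_of {f : ℝ⟦X⟧} (hf : NN f) (h0 : coeff 0 f = 1) : LE 1 f := by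
  intro n
  rw [coeff_one]
  split_ifs with h
  · subst h; rw [h0]
  · exact hf n

lemma LE_mul_one {f g : ℝ⟦X⟧} (hf : NN f) (hg : LE 1 g) : LE f (f * g) := by
  have := LE.mul (LE.refl f) hg hf NN.one
  simpa using this

/-- the series `A` -/
lemma LE_piece (m j : ℕ) (hj : j ≤ m) {p : ℝ} (hp0 : 0 ≤ p) :
    LE (G1 ^ j * ab ((j : ℝ) / 2 - (((m + 1 : ℕ) : ℝ) / 2 - p - 1))) (G1 ^ m * ab (1 / 2 + p)) := by
  have hG1 : LE 1 G1 := LE_one_of NN_G1 coeff_G1_zero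
  have hab : LE 1 (ab (1 / 2 + p)) := LE_one_of (NN.ab (by linarith)) (coeff_ab_zero _)
  push_cast
  rcases Nat.lt_or_ge (j + 1) m with h | h
  · -- `c < 0`
    obtain ⟨i, rfl⟩ : ∃ i, m = j + i + 2 := ⟨m - j - 2, by omega⟩
    by_cases hneg : (j : ℝ) / 2 - ((((j + i + 2 : ℕ) : ℝ) + 1) / 2 - p - 1) ≤ 0
    · have h1 := LE_ab_neg hneg
      have h2 : LE (Ex (-((j : ℝ) / 2 - ((((j + i + 2 : ℕ) : ℝ) + 1) / 2 - p - 1))))
          (Ex (((i + 1 : ℕ) : ℝ) / 2)) := by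
        apply LE_Ex_mono
        · linarith
        · push_cast; linarith
      have h3 : LE (ab ((j : ℝ) / 2 - ((((j + i + 2 : ℕ) : ℝ) + 1) / 2 - p - 1)))
          (G1 ^ (i + 1)) := h1.trans (h2.trans (LE_Ex_G1_pow (i + 1)))
      have h4 : LE (G1 ^ j * ab ((j : ℝ) / 2 - ((((j + i + 2 : ℕ) : ℝ) + 1) / 2 - p - 1)))
          (G1 ^ j * G1 ^ (i + 1)) := by
        rw [mul_comm, mul_comm (G1 ^ j)]
        exact LE.mul h3 (LE.refl _) (NN_G1_pow _) (NN_G1_pow _)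
      have h5 : LE (G1 ^ j * G1 ^ (i + 1)) (G1 ^ (j + i + 2)) := by
        have e : G1 ^ (j + i + 2) = G1 ^ j * G1 ^ (i + 1) * G1 := by ring
        rw [e]
        exact LE_mul_one ((NN_G1_pow _).mul (NN_G1_pow _)) hG1
      exact h4.trans (h5.trans (LE_mul_one (NN_G1_pow _) hab))
    · -- only possible for `p` large; still fine
      have hc0 : 0 ≤ (j : ℝ) / 2 - ((((j + i + 2 : ℕ) : ℝ) + 1) / 2 - p - 1) := by linarith
      have h1 : LE (ab ((j : ℝ) / 2 - ((((j + i + 2 : ℕ) : ℝ) + 1) / 2 - p - 1)))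
          (ab (1 / 2 + p)) := by
        have e : ab (1 / 2 + p) = ab ((j : ℝ) / 2 - ((((j + i + 2 : ℕ) : ℝ) + 1) / 2 - p - 1))
            * ab (1 / 2 + p - ((j : ℝ) / 2 - ((((j + i + 2 : ℕ) : ℝ) + 1) / 2 - p - 1))) := by
          rw [← ab_add]; congr 1; ring
        rw [e]
        apply LE_mul_one (NN.ab hc0)
        apply LE_one_of (NN.ab _) (coeff_ab_zero _)
        push_cast
        have : (0 : ℝ) ≤ i := i.cast_nonneg
        linarith
      have e : G1 ^ (j + i + 2) = G1 ^ j * G1 ^ (i + 2) := by ring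
      have h2 : LE (G1 ^ j) (G1 ^ (j + i + 2)) := by
        rw [e]
        exact LE_mul_one (NN_G1_pow _) (LE_one_of (NN_G1_pow _) (coeff_G1_pow_zero _))
      exact LE.mul h2 h1 (NN_G1_pow _) (NN.ab hc0)
  · have hc0 : 0 ≤ (j : ℝ) / 2 - (((m : ℝ) + 1) / 2 - p - 1) := by
      have : (m : ℝ) ≤ j + 1 := by exact_mod_cast h
      linarith
    have h1 : LE (ab ((j : ℝ) / 2 - (((m : ℝ) + 1) / 2 - p - 1))) (ab (1 / 2 + p)) := by
      have e : ab (1 / 2 + p) = ab ((j : ℝ) / 2 - (((m : ℝ) + 1) / 2 - p - 1))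
          * ab (((m : ℝ) - j) / 2) := by
        rw [← ab_add]; congr 1; ring
      rw [e]
      apply LE_mul_one (NN.ab hc0)
      apply LE_one_of (NN.ab _) (coeff_ab_zero _)
      have : (j : ℝ) ≤ m := by exact_mod_cast hj
      linarith
    obtain ⟨i, rfl⟩ := Nat.exists_eq_add_of_le hj
    have e : G1 ^ (j + i) = G1 ^ j * G1 ^ i := by ring
    have h2 : LE (G1 ^ j) (G1 ^ (j + i)) := by
      rw [e]
      exact LE_mul_one (NN_G1_pow _) (LE_one_of (NN_G1_pow _) (coeff_G1_pow_zero _))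
    exact LE.mul h2 h1 (NN_G1_pow _) (NN.ab hc0)

lemma kappa_eq : (1 + C (1 / 2 : ℝ) * (X - 1) : ℝ⟦X⟧) = C (1 / 2) * (1 + X) := by
  have e : (C (1 / 2 : ℝ) : ℝ⟦X⟧) * 2 = 1 := by
    rw [show (2 : ℝ⟦X⟧) = C (2 : ℝ) from (map_ofNat C 2).symm, ← map_mul]; norm_num
  linear_combination -e

lemma kappa_pow_eq (j : ℕ) : (1 + C (1 / 2 : ℝ) * (X - 1) : ℝ⟦X⟧) ^ j
    = S (C ((1 / 2) ^ j) * (G1 ^ j * ab ((j : ℝ) / 2))) := by
  rw [map_mul, map_mul, S_C, S_G1_pow, S_ab, kappa_eq, mul_pow, map_pow]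
  have e := Ex_mul_neg ((j : ℝ) / 2)
  linear_combination -(C (1 / 2 : ℝ) ^ j * (1 + X) ^ j) * e

theorem inW_rem_aux (m : ℕ) (hm : 1 ≤ m) {p : ℝ} (hp : p = (1 / 2) ^ (m + 2)) :
    InW (((m + 1 : ℕ) : ℝ) / 2 - p)
      ((1 + C (1 / 2 : ℝ) * (X - 1)) ^ (m + 1) - C p * (X - 1)) := by
  have hp0 : 0 < p := by rw [hp]; positivity
  have hp1 : p ≤ 1 / 8 := by
    rw [hp]
    refine (pow_le_pow_of_le_one (by norm_num) (by norm_num) (show 3 ≤ m + 2 by omega)).trans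
      (by norm_num)
  have hm1 : (1 : ℝ) ≤ m := by exact_mod_cast hm
  obtain ⟨ν, hν⟩ : ∃ ν : ℝ, ν = ((m + 1 : ℕ) : ℝ) / 2 - p := ⟨_, rfl⟩
  have hν0 : 0 ≤ ν := by rw [hν]; push_cast; linarith
  set κ : ℝ⟦X⟧ := 1 + C (1 / 2 : ℝ) * (X - 1) with hκ
  rw [← hν]
  apply InW.of_deriv (R := C (((m + 1 : ℕ) : ℝ) / 4) * κ ^ m - C (p / 2) * ∑ j ∈ range (m + 1), κ ^ j
    - C (p * ν))
  · simp [hκ]
    have : (0 : ℝ) ≤ (1 + -1 / 2) ^ (m + 1) := by norm_num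
    norm_num
    positivity
  · -- the series
    have e1 : C (((m + 1 : ℕ) : ℝ) / 4) * κ ^ m - C (p / 2) * ∑ j ∈ range (m + 1), κ ^ j - C (p * ν)
        = S (C p * (C ((m + 1 : ℕ) : ℝ) * (G1 ^ m * ab ((m : ℝ) / 2))
          - C (1 / 2) * ∑ j ∈ range (m + 1), C ((1 / 2) ^ j) * (G1 ^ j * ab ((j : ℝ) / 2))
          - C ν)) := by
      have hS : S (C p * (C ((m + 1 : ℕ) : ℝ) * (G1 ^ m * ab ((m : ℝ) / 2))
          - C (1 / 2) * ∑ j ∈ range (m + 1), C ((1 / 2) ^ j) * (G1 ^ j * ab ((j : ℝ) / 2))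
          - C ν)) = C p * (C ((m + 1 : ℕ) : ℝ) * S (G1 ^ m * ab ((m : ℝ) / 2))
          - C (1 / 2) * ∑ j ∈ range (m + 1), S (C ((1 / 2) ^ j) * (G1 ^ j * ab ((j : ℝ) / 2)))
          - C ν) := by
        rw [map_mul S, map_sub S, map_sub S, map_mul S (C ((m + 1 : ℕ) : ℝ)), map_mul S (C (1 / 2)),
          map_sum S, S_C, S_C, S_C, S_C]
      rw [hS]
      have hm' := kappa_pow_eq m
      rw [map_mul S, S_C] at hm'
      have e2 : ∑ j ∈ range (m + 1), S (C ((1 / 2) ^ j) * (G1 ^ j * ab ((j : ℝ) / 2)))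
          = ∑ j ∈ range (m + 1), κ ^ j := sum_congr rfl fun j _ => (kappa_pow_eq j).symm
      rw [e2, hκ, hm']
      have e3 : (((m + 1 : ℕ) : ℝ) / 4) * (1 / 2) ^ m = p * ((m + 1 : ℕ) : ℝ) := by
        rw [hp, pow_add]; ring
      have e3' := congrArg (C (R := ℝ)) e3
      have e4 : (C (p / 2) : ℝ⟦X⟧) = C p * C (1 / 2) := by rw [← map_mul]; congr 1; ring
      rw [map_mul, map_mul] at e3'
      have e6 : (C (p * ν) : ℝ⟦X⟧) = C p * C ν := map_mul _ _ _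
      rw [e4, e6]
      linear_combination (S (G1 ^ m * ab ((m : ℝ) / 2))) * e3'
    rw [e1, inW_S_iff]
    have e5 : ab (-(ν - 1)) * (C p * (C ((m + 1 : ℕ) : ℝ) * (G1 ^ m * ab ((m : ℝ) / 2))
          - C (1 / 2) * ∑ j ∈ range (m + 1), C ((1 / 2) ^ j) * (G1 ^ j * ab ((j : ℝ) / 2))
          - C ν))
        = C p * (C ((m + 1 : ℕ) : ℝ) * (G1 ^ m * ab (1 / 2 + p))
          - ∑ j ∈ range (m + 1), C ((1 / 2) * (1 / 2) ^ j) * (G1 ^ j * ab ((j : ℝ) / 2 - (ν - 1)))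
          - C ν * (G1 ^ 0 * ab (((0 : ℕ) : ℝ) / 2 - (ν - 1)))) := by
      have a1 : ab (1 / 2 + p) = ab (-(ν - 1)) * ab ((m : ℝ) / 2) := by
        rw [← ab_add]; congr 1; rw [hν]; push_cast; ring
      have a2 : ab (((0 : ℕ) : ℝ) / 2 - (ν - 1)) = ab (-(ν - 1)) := by congr 1; push_cast; ring
      have a3 : ∑ j ∈ range (m + 1), C ((1 / 2) * (1 / 2) ^ j) * (G1 ^ j * ab ((j : ℝ) / 2 - (ν - 1)))
          = C (1 / 2) * (∑ j ∈ range (m + 1), C ((1 / 2) ^ j) * (G1 ^ j * ab ((j : ℝ) / 2)))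
            * ab (-(ν - 1)) := by
        rw [mul_sum, sum_mul]
        refine sum_congr rfl fun j _ => ?_
        have : ab ((j : ℝ) / 2 - (ν - 1)) = ab (-(ν - 1)) * ab ((j : ℝ) / 2) := by
          rw [← ab_add]; congr 1; ring
        rw [this, map_mul]; ring
      rw [a1, a2, a3, pow_zero]
      ring
    rw [e5]
    apply NN.smul hp0.le
    intro n
    rw [map_sub, map_sub, map_sum, coeff_C_mul, coeff_C_mul]
    set A := coeff n (G1 ^ m * ab (1 / 2 + p)) with hA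
    have hA0 : 0 ≤ A := ((NN_G1_pow m).mul (NN.ab (by linarith))) n
    have b1 : ∑ j ∈ range (m + 1),
        coeff n (C ((1 / 2) * (1 / 2) ^ j) * (G1 ^ j * ab ((j : ℝ) / 2 - (ν - 1))))
        ≤ ∑ j ∈ range (m + 1), (1 / 2 : ℝ) * (1 / 2) ^ j * A := by
      apply sum_le_sum
      intro j hj
      rw [coeff_C_mul]
      apply mul_le_mul_of_nonneg_left _ (by positivity)
      have := LE_piece m j (by have := mem_range.1 hj; omega) hp0.le n
      rw [hν]; exact this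
    have b2 : ∑ j ∈ range (m + 1), (1 / 2 : ℝ) * (1 / 2) ^ j * A ≤ A := by
      rw [← sum_mul, ← mul_sum, geom_sum_eq (by norm_num)]
      have h1 : (0 : ℝ) ≤ (1 / 2) ^ (m + 1) := by positivity
      have h2 : (1 / 2 : ℝ) * (((1 / 2) ^ (m + 1) - 1) / (1 / 2 - 1)) = 1 - (1 / 2) ^ (m + 1) := by
        ring
      rw [h2]
      nlinarith
    have b3 : coeff n (G1 ^ 0 * ab (((0 : ℕ) : ℝ) / 2 - (ν - 1))) ≤ A := by
      have := LE_piece m 0 (Nat.zero_le _) hp0.le n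
      rw [hν]; exact this
    have b4 : ν * coeff n (G1 ^ 0 * ab (((0 : ℕ) : ℝ) / 2 - (ν - 1))) ≤ ν * A :=
      mul_le_mul_of_nonneg_left b3 hν0
    have b5 : 0 ≤ (((m + 1 : ℕ) : ℝ) - 1 - ν) * A := by
      apply mul_nonneg _ hA0
      rw [hν]; push_cast; linarith
    linarith
  · -- the derivative
    have hgeo := geom_sum_mul κ (m + 1)
    have hk1 : κ - 1 = C (1 / 2) * (X - 1) := by rw [hκ]; ring
    rw [hk1] at hgeo
    have hd : d⁄dX ℝ (κ ^ (m + 1)) = C (((m + 1 : ℕ) : ℝ) / 2) * κ ^ m := by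
      rw [Derivation.leibniz_pow, Nat.add_sub_cancel, hκ, deriv_coin]
      simp only [smul_eq_mul, nsmul_eq_mul]
      have : (C (((m + 1 : ℕ) : ℝ) / 2) : ℝ⟦X⟧) = ((m + 1 : ℕ) : ℝ⟦X⟧) * C (1 / 2) := by
        rw [← map_natCast (C (R := ℝ)) (m + 1), ← map_mul]; congr 1; ring
      rw [this]; ring
    rw [map_sub, hd, deriv_C_mul, map_sub, derivative_X, Derivation.map_one_eq_zero]
    have c1 : (C (((m + 1 : ℕ) : ℝ) / 2) : ℝ⟦X⟧) = C ν + C p := by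
      rw [← map_add]; congr 1; rw [hν]; ring
    have c2 : (C (((m + 1 : ℕ) : ℝ) / 4) : ℝ⟦X⟧) = C (1 / 2) * (C ν + C p) := by
      rw [← map_add, ← map_mul]; congr 1; rw [hν]; ring
    have c3 : (C (p / 2) : ℝ⟦X⟧) = C p * C (1 / 2) := by rw [← map_mul]; congr 1; ring
    have hkm : κ ^ (m + 1) = κ ^ m * (1 + C (1 / 2) * (X - 1)) := by rw [pow_succ]
    rw [c1, c2, c3, map_mul]
    linear_combination (-(C p)) * hgeo - (C ν + C p) * hkm

/-- `κ^l - p y` -/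
theorem inW_rem (l : ℕ) (hl : 1 ≤ l) {p : ℝ} (hp : p = (1 / 2) ^ (l + 1)) :
    InW ((l : ℝ) / 2 - p) ((1 + C (1 / 2 : ℝ) * (X - 1)) ^ l - C p * (X - 1)) := by
  obtain ⟨m, rfl⟩ : ∃ m, l = m + 1 := ⟨l - 1, by omega⟩
  rcases Nat.eq_zero_or_pos m with h | h
  · subst h
    have hp' : p = 1 / 4 := by rw [hp]; norm_num
    subst hp'
    refine (InW.coin (s := 1 / 4) (by norm_num)).congr (by norm_num) ?_
    have e : (C (1 / 2 : ℝ) : ℝ⟦X⟧) = C (1 / 4) + C (1 / 4) := by rw [← map_add]; congr 1; norm_num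
    rw [Nat.zero_add, pow_one, e]; ring
  · exact inW_rem_aux m h hp

end Pool.Agent.Lib_helper26.SRC
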