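import Pool.Agent.Lib_helper26.SRC.Honest

set_option autoImplicit false

/-! # Case III only has to be proved for honest stars -/

namespace Pool.Agent.Lib_helper26.SRC

open PowerSeries Finset Pool.Agent.Lib_helper36.SRC Pool.Agent.Lib_helper36.SRC.RT
  Pool.Agent.Lib_helper79.SRC

/-- case III for honest stars -/
def CaseIIIH : Prop := ∀ n : ℕ, GoodUpTo n → ∀ (h : ℕ) (ls : List ℕ) (W : RT),
  ls ≠ [] → (∀ l ∈ ls, 2 * t (hon l) ≤ t (node h (ls.map hon))) →
  size (node h (ls.map hon)) + size W ≤ n + 1 → ¬ IsLeaf W → t W ≠ t (node h (ls.map hon)) →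
  GoodJ (node h (ls.map hon)) W

lemma hon_kids (l : ℕ) : (hon l).kids = List.replicate l (lf 0) := kids_node _ _

lemma isStar_hon {l : ℕ} (hl : 1 ≤ l) : IsStar (hon l) := by
  refine ⟨?_, ?_⟩
  · rw [hon_kids]; intro h
    have := congrArg List.length h
    simp at this; omega
  · intro d hd
    rw [hon_kids] at hd
    rw [List.eq_of_mem_replicate hd]
    exact isLeaf_lf 0

/-- all star children may be assumed honest -/
theorem good_normalize {n : ℕ} (hn : GoodUpTo n) (h : ℕ) (W : RT) :
    ∀ (todo : List RT) (done : List ℕ), (∀ c ∈ todo, IsStar c) → (∀ l ∈ done, 1 ≤ l) →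
    size (node h (W :: (done.map hon ++ todo))) ≤ n + 1 →
    (∀ ls : List ℕ, ls.length = done.length + todo.length → (∀ l ∈ ls, 1 ≤ l) →
      size (node h (W :: ls.map hon)) ≤ n + 1 → Good (node h (W :: ls.map hon))) →
    Good (node h (W :: (done.map hon ++ todo))) := by
  intro todo
  induction todo with
  | nil =>
    intro done _ hd hs hfin
    rw [List.append_nil] at hs ⊢
    exact hfin done (by simp) hd hs
  | cons c rest ih =>
    intro done hc hd hs hfin
    set l := c.kids.length with hl
    have hst : IsStar c := hc c (by simp)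
    have hl1 : 1 ≤ l := List.length_pos_iff.2 hst.1
    obtain ⟨as, hcas, hlen⟩ := star_eq c hst
    have hsz : size c = l + 1 := by
      conv_lhs => rw [hcas]
      rw [size_node, sizeL_map_lf, hlen]
    have hp1 : (W :: (done.map hon ++ c :: rest)).Perm (c :: W :: (done.map hon ++ rest)) :=
      (List.perm_middle.cons W).trans (List.Perm.swap _ _ _)
    have hs1 := hs
    rw [size_node, sizeL_perm hp1, sizeL_cons] at hs1
    refine (good_perm h hp1).2 ((good_cons h c _).2 ?_)
    apply goodJ_of_honest hn c _ hst
    · rw [size_node]; omega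
    · rw [← hl, ← good_cons]
      have hp2 : (hon l :: W :: (done.map hon ++ rest)).Perm (W :: ((l :: done).map hon ++ rest)) := by
        rw [List.map_cons, List.cons_append]
        exact List.Perm.swap _ _ _
      rw [good_perm h hp2]
      apply ih (l :: done) (fun d hd' => hc d (List.mem_cons_of_mem _ hd'))
      · intro j hj
        rcases List.mem_cons.1 hj with rfl | hj
        · exact hl1
        · exact hd j hj
      · rw [size_node, ← sizeL_perm hp2, sizeL_cons, size_hon]
        omega
      · intro ls hls
        apply hfin ls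
        rw [hls]; simp; omega

theorem caseIII_of_H (h1 : CaseI) (h3 : CaseIIIH) : CaseIII := by
  intro n hn h cs W hs hne hcs hW hWt
  apply GoodJ.comm
  rw [← good_cons]
  have h0 := good_normalize hn h W cs [] (fun c hc => (hcs c hc).1) (by simp)
    (by rw [List.map_nil, List.nil_append, size_node, sizeL_cons]
        rw [size_node] at hs
        omega)
  rw [List.map_nil, List.nil_append] at h0
  apply h0
  intro ls hlen hl1 hsz
  rw [List.length_nil, Nat.zero_add] at hlen
  have hcl : cs.length ≠ 0 := by
    intro h'; exact hne (List.length_eq_zero_iff.1 h')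
  have hls : ls ≠ [] := by
    rintro rfl; simp at hlen; omega
  set u := t (node h cs) with hu
  have hut : t (node h (ls.map hon)) = u := t_length h (by simp; omega)
  rw [size_node, sizeL_cons] at hsz
  have hsW := size_pos W
  -- look at `u` from the child `hon l`
  have look : ∀ l ∈ ls, ∃ rest : List RT, (W :: ls.map hon).Perm (hon l :: rest) ∧
      size (hon l) + size (node h rest) ≤ n + 1 ∧ t (node h rest) = u ∧ size (node h rest) ≤ n ∧
      size (hon l) ≤ n := by
    intro l hl
    obtain ⟨l1, l2, rfl⟩ := List.append_of_mem hl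
    refine ⟨W :: (l1 ++ l2).map hon, ?_, ?_, ?_, ?_, ?_⟩
    · have hp : ((l1 ++ l :: l2).map hon).Perm (hon l :: (l1 ++ l2).map hon) := by
        rw [← List.map_cons]; exact List.perm_middle.map hon
      exact (hp.cons W).trans (List.Perm.swap _ _ _)
    · rw [size_node, sizeL_cons]
      have hp : ((l1 ++ l :: l2).map hon).Perm (hon l :: (l1 ++ l2).map hon) := by
        rw [← List.map_cons]; exact List.perm_middle.map hon
      rw [sizeL_perm hp, sizeL_cons] at hsz
      omega
    · rw [hu]; exact t_length h (by simp at hlen ⊢; omega)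
    · rw [size_node, sizeL_cons]
      have hp : ((l1 ++ l :: l2).map hon).Perm (hon l :: (l1 ++ l2).map hon) := by
        rw [← List.map_cons]; exact List.perm_middle.map hon
      rw [sizeL_perm hp, sizeL_cons] at hsz
      have := size_pos (hon l)
      omega
    · have hp : ((l1 ++ l :: l2).map hon).Perm (hon l :: (l1 ++ l2).map hon) := by
        rw [← List.map_cons]; exact List.perm_middle.map hon
      rw [sizeL_perm hp, sizeL_cons] at hsz
      omega
  by_cases heq : ∃ l ∈ ls, t (hon l) = u
  · obtain ⟨l, hl, hlt⟩ := heq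
    obtain ⟨rest, hp, _, ht, hsr, hsc⟩ := look l hl
    exact good_of_mem h _ _ rest hp (goodJ_of_t_eq hn _ _ hsc hsr (by rw [hlt, ht]))
  push Not at heq
  by_cases hheavy : ∃ l ∈ ls, 2 * u ≤ t (hon l)
  · obtain ⟨l, hl, hlt⟩ := hheavy
    obtain ⟨rest, hp, hsz', ht, _, _⟩ := look l hl
    apply good_of_mem h _ _ rest hp
    apply h1 n hn _ _ hsz' (isStar_hon (hl1 l hl)) _ (by rw [ht]; exact hlt)
    intro d hd
    rw [hon_kids] at hd
    rw [List.eq_of_mem_replicate hd, t_hon, t_lf]
    have : ((1 : ℝ) / 2) ^ (l + 1) ≤ (1 / 2) ^ 2 := half_pow_mono (by have := hl1 l hl; omega)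
    norm_num at this ⊢
    linarith
  push Not at hheavy
  rw [good_cons]
  apply GoodJ.comm
  apply h3 n hn h ls W hls
  · intro l hl
    rw [hut]
    rcases t_cmp (hon l) (node h cs) with h' | h' | h'
    · exact absurd h' (heq l hl)
    · exact h'
    · exact absurd (hheavy l hl) (not_lt.2 h')
  · rw [size_node]; omega
  · exact hW
  · rw [hut]; exact hWt

end Pool.Agent.Lib_helper26.SRC
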