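import Pool.Agent.Lib_helper26.SRC.Scheme2
import Pool.Agent.Lib_helper26.SRC.Rem

set_option autoImplicit false

/-! # A child with `2 t_c = t_u` can be removed -/

namespace Pool.Agent.Lib_helper26.SRC

open PowerSeries Finset Pool.Agent.Lib_helper36.SRC Pool.Agent.Lib_helper36.SRC.RT
  Pool.Agent.Lib_helper79.SRC

lemma B_hon (l : ℕ) : B (hon l) = (1 + C (1 / 2 : ℝ) * (X - 1)) ^ l := by
  unfold hon
  induction l with
  | zero => rw [List.replicate_zero, B_nil', pow_zero]
  | succ l ih => rw [B_rep, ih, pow_succ, mul_comm]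

lemma β_hon (l : ℕ) : β (hon l) = l / 2 := by
  unfold hon
  induction l with
  | zero => rw [List.replicate_zero, β_nil']; simp
  | succ l ih => rw [β_rep, ih]; push_cast; ring

lemma N_hon (l : ℕ) : N (hon l) = 1 := by
  unfold hon
  induction l with
  | zero => rw [List.replicate_zero]; unfold N; rw [kids_node]; rfl
  | succ l ih => rw [List.replicate_succ, N_lf_cons, ih]

/-- helper68's removal -/
theorem goodJ_rem {n : ℕ} (hn : GoodUpTo n) (l : ℕ) (hl : 1 ≤ l) (R : RT)
    (hs : size (hon l) + size R ≤ n + 1) (ht : t R = 2 * t (hon l)) : GoodJ (hon l) R := by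
  have hc := size_pos (hon l)
  have hR := size_pos R
  set p := t (hon l) with hp
  have hA : InW (l / 2 + 2 * p) (A (hon l)) := by
    have := hn.A (hon l) (by omega)
    unfold α at this
    rwa [β_hon, ← hp] at this
  have hA' : A (hon l) = B (hon l) + C (2 * p) * (X - 1) := by
    unfold A; rw [N_hon, mul_one]
  have hE : InW ((l : ℝ) / 2 - p) (B (hon l) - C p * (X - 1)) := by
    rw [B_hon]; exact inW_rem l hl (by rw [hp, t_hon])
  have hW2 : InW (β R + p) (B R + C p * ((X - 1) * N R)) := by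
    have h1 := hn.H (node (R.hh + 1) R.kids) (by
      rw [size_node, ← size_node R.hh, RT.eta]; omega)
    have h2 : t (node (R.hh + 1) R.kids) = p := by
      have := t_succ R.hh R.kids
      rw [RT.eta] at this; linarith
    unfold H at h1
    rw [h2] at h1
    rwa [B_hh (R.hh + 1) R.hh, N_hh (R.hh + 1) R.hh, β_hh (R.hh + 1) R.hh, RT.eta] at h1
  have hA2 : InW (β R + 4 * p) (B R + C (4 * p) * ((X - 1) * N R)) := by
    have h1 := hn.A R (by omega)
    unfold α A at h1
    rw [ht] at h1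
    refine h1.congr (by ring) ?_
    have : 2 * (2 * p) = 4 * p := by ring
    rw [this]
  have key : J (hon l) R = C (2 / 3) * ((B (hon l) + C (2 * p) * (X - 1))
        * (B R + C p * ((X - 1) * N R)))
      + C (1 / 3) * ((B (hon l) - C p * (X - 1)) * (B R + C (4 * p) * ((X - 1) * N R))) := by
    rw [J_eq, N_hon, ← hp]
    unfold H
    rw [ht]
    have c1 : (C (2 * p) : ℝ⟦X⟧) = 2 * C p := by rw [map_mul, map_ofNat]
    have c2 : (C (4 * p) : ℝ⟦X⟧) = 4 * C p := by rw [map_mul, map_ofNat]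
    have c3 : (C (2 / 3 : ℝ) : ℝ⟦X⟧) = 2 * C (1 / 3) := by
      rw [show (2 / 3 : ℝ) = 2 * (1 / 3) by norm_num, map_mul, map_ofNat]
    have c4 : (3 : ℝ⟦X⟧) * C (1 / 3) = 1 := by
      rw [show (3 : ℝ⟦X⟧) = C (3 : ℝ) from (map_ofNat C 3).symm, ← map_mul]; norm_num
    rw [c1, c2, c3]
    linear_combination -(B (hon l) * (B R + 2 * C p * ((X - 1) * N R))
      + C p * (X - 1) * B R) * c4
  unfold GoodJ
  rw [key]
  rw [← hA'] at *
  apply InW.add
  · refine ((hA.mul hW2).smul (by norm_num : (0 : ℝ) ≤ 2 / 3)).congr ?_ ?_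
    · unfold mJ; rw [β_hon, ht, ← hp]; ring
    · rfl
  · refine ((hE.mul hA2).smul (by norm_num : (0 : ℝ) ≤ 1 / 3)).congr ?_ rfl
    unfold mJ; rw [β_hon, ht, ← hp]; ring

/-- case III for honest stars with `4 t_c ≤ t_u` -/
def CaseIIIH4 : Prop := ∀ n : ℕ, GoodUpTo n → ∀ (h : ℕ) (ls : List ℕ) (W : RT),
  ls ≠ [] → (∀ l ∈ ls, 4 * t (hon l) ≤ t (node h (ls.map hon))) →
  size (node h (ls.map hon)) + size W ≤ n + 1 → ¬ IsLeaf W → t W ≠ t (node h (ls.map hon)) →
  GoodJ (node h (ls.map hon)) W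

lemma half_pow_le_iff (a b : ℕ) (h : ((1 : ℝ) / 2) ^ a ≤ (1 / 2) ^ b) : b ≤ a := by
  by_contra hc
  have h1 : ((1 : ℝ) / 2) ^ b < (1 / 2) ^ a :=
    pow_lt_pow_right_of_lt_one₀ (by norm_num) (by norm_num) (by omega)
  linarith

theorem caseIIIH_of_H4 (h3 : CaseIIIH4) : CaseIIIH := by
  intro n hn h ls W hls hlt hs hW hWt
  set u := t (node h (ls.map hon)) with hu
  have hu' : u = (1 / 2) ^ (h + ls.length + 1) := by rw [hu]; unfold t; simp
  by_cases hex : ∃ l ∈ ls, u = 2 * t (hon l)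
  · obtain ⟨l, hl, hlu⟩ := hex
    have hl1 : 1 ≤ l := by
      rcases Nat.eq_zero_or_pos l with h0 | h0
      · exfalso
        subst h0
        rw [t_hon, hu'] at hlu
        have : ((1 : ℝ) / 2) ^ (h + ls.length + 1) ≤ (1 / 2) ^ 1 := half_pow_mono (by omega)
        have hlen : ls.length ≠ 0 := fun h' => hls (List.length_eq_zero_iff.1 h')
        norm_num at hlu this
        linarith
      · exact h0
    obtain ⟨l1, l2, rfl⟩ := List.append_of_mem hl
    have hp0 : ((l1 ++ l :: l2).map hon).Perm (hon l :: (l1 ++ l2).map hon) := by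
      rw [← List.map_cons]; exact List.perm_middle.map hon
    apply GoodJ.comm
    rw [← good_cons]
    have hp : (W :: (l1 ++ l :: l2).map hon).Perm (hon l :: W :: (l1 ++ l2).map hon) :=
      (hp0.cons W).trans (List.Perm.swap _ _ _)
    apply good_of_mem h _ _ _ hp
    apply goodJ_rem hn l hl1
    · rw [size_node] at hs ⊢
      rw [sizeL_perm hp0, sizeL_cons] at hs
      rw [sizeL_cons]
      omega
    · rw [← hlu, hu]
      exact t_length h (by simp; omega)
  · push Not at hex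
    apply h3 n hn h ls W hls _ hs hW hWt
    intro l hl
    have h1 := hlt l hl
    have h2 := hex l hl
    rw [← hu]
    rw [hu', t_hon] at h1 h2 ⊢
    have e1 : 2 * ((1 : ℝ) / 2) ^ (l + 1) = (1 / 2) ^ l := by rw [pow_succ]; ring
    rw [e1] at h1 h2
    have h3' := half_pow_le_iff _ _ h1
    have h4' : h + ls.length + 1 ≠ l := fun e => h2 (by rw [e])
    obtain ⟨m, rfl⟩ : ∃ m, l = m + 1 := ⟨l - 1, by omega⟩
    have e2 : 4 * ((1 : ℝ) / 2) ^ (m + 1 + 1) = (1 / 2) ^ m := by rw [pow_succ, pow_succ]; ring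
    rw [e2]
    exact half_pow_mono (by omega)

theorem caseIII_of_H4 (h1 : CaseI) (h3 : CaseIIIH4) : CaseIII :=
  caseIII_of_H h1 (caseIIIH_of_H4 h3)

end Pool.Agent.Lib_helper26.SRC
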